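import Pool.Agent.Lib.MP_f3b2fd_co.KEP.B.H.Tb
import Pool.Agent.Lib.MP_f3b2fd_co.KEP.B.H.D5

/-! Kernel checks of the grid tables. -/

set_option autoImplicit false

namespace Pool.Agent.Lib.MP_f3b2fd_co.KEP.Hu

theorem k_sq : alln 32 (sqB (nth tW)) = true := by decide +kernel

theorem k_vtx : all3 32 (vtxB (nth tW) (tb 0 1) (tb 0 7) (tb 0 12) (nth tE)) = true := by
  decide +kernel
end Pool.Agent.Lib.MP_f3b2fd_co.KEP.Hu
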