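import Pool.Agent.Lib.MP_f3b2fd_co.KEP.B.H.Tb
import Pool.Agent.Lib.MP_f3b2fd_co.KEP.B.H.D5

/-! Kernel checks of the grid tables. -/

set_option autoImplicit false

namespace Pool.Agent.Lib.MP_f3b2fd_co.KEP.Hu

theorem k_c1 : all3 16 (crsB 2 (tb 0 1) (tb 0 7) (tb 0 12) (tb 1 1) (tb 1 7) (tb 1 12)) = true := by
  decide +kernel

theorem k_c2 : all3 8 (crsB 4 (tb 0 1) (tb 0 7) (tb 0 12) (tb 2 1) (tb 2 7) (tb 2 12)) = true := by
  decide +kernel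
end Pool.Agent.Lib.MP_f3b2fd_co.KEP.Hu
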