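import Pool.Agent.Lib.MP_f3b2fd_co.KEP.B.H.Tb
import Pool.Agent.Lib.MP_f3b2fd_co.KEP.B.H.D5

/-! Kernel checks of the grid tables. -/

set_option autoImplicit false

namespace Pool.Agent.Lib.MP_f3b2fd_co.KEP.Hu

theorem k_p0 : all3 32 (prmB (tb 0 0) (tb 0 1) (tb 0 2)) = true := by decide +kernel

theorem k_p1 : all3 32 (prmB (tb 1 0) (tb 1 1) (tb 1 2)) = true := by decide +kernel

theorem k_p2 : all3 32 (prmB (tb 2 0) (tb 2 1) (tb 2 2)) = true := by decide +kernel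

theorem k_q0 : all3 32 (prmB (tb 0 6) (tb 0 7) (tb 0 8)) = true := by decide +kernel

theorem k_q1 : all3 32 (prmB (tb 1 6) (tb 1 7) (tb 1 8)) = true := by decide +kernel

theorem k_q2 : all3 32 (prmB (tb 2 6) (tb 2 7) (tb 2 8)) = true := by decide +kernel
end Pool.Agent.Lib.MP_f3b2fd_co.KEP.Hu
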