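import Pool.Agent.Lib.MP_f3b2fd_co.KEP.B.H.Chk

/-! The checker of the weighted tables: definitions. -/

set_option autoImplicit false

namespace Pool.Agent.Lib.MP_f3b2fd_co.KEP.Hu

noncomputable section

/-- the test along one edge of a cell. -/
def eg (g0 g1 q0 q1 c0 c1 : ℕ) : Bool :=
  an (Nat.ble (128 * c0 + 536870912 * g0 + (g0 - g1) * (q0 - q1)) (4294967296 + 4 * g0 * q0))
    (Nat.ble (128 * c1 + 536870912 * g1 + (g0 - g1) * (q0 - q1)) (4294967296 + 4 * g1 * q1))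

/-- the four edges of a cell in the first direction. -/
def wc (n : ℕ) (Q C : ℕ → ℕ → ℕ → ℕ) (i j k : ℕ) : Bool :=
  fc (Nat.succ i) fun i' => fc (Nat.succ j) fun j' => fc (Nat.succ k) fun k' =>
    fc (24 - n * i) fun g0 => fc (24 - n * i') fun g1 =>
    an (an (eg g0 g1 (Q i j k) (Q i' j k) (C i j k) (C i' j k))
        (eg g0 g1 (Q i j k') (Q i' j k') (C i j k') (C i' j k')))
      (an (eg g0 g1 (Q i j' k) (Q i' j' k) (C i j' k) (C i' j' k))
        (eg g0 g1 (Q i j' k') (Q i' j' k') (C i j' k') (C i' j' k')))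

def q3 (A B L : ℕ → ℕ) (i j k : ℕ) : ℕ := ge A i j k + ge B i j k + ge L i j k

def wB (n : ℕ) (T : ℕ → ℕ → ℕ) (i j k : ℕ) : Bool :=
  Bool.rec true
    (an (wc n (q3 (T 6) (T 7) (T 2)) (ge (T 9)) i j k)
      (an (wc n (fun j k i => q3 (T 7) (T 8) (T 0) i j k) (fun j k i => ge (T 10) i j k) j k i)
        (wc n (fun k i j => q3 (T 8) (T 6) (T 1) i j k) (fun k i j => ge (T 11) i j k) k i j)))
    (at8 (okb (T 12)) i j k)

def leB (T : ℕ → ℕ → ℕ) (i j k : ℕ) : Bool :=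
  an (Nat.ble (ge (T 9) i j k) 67108864)
    (an (Nat.ble (ge (T 10) i j k) 67108864) (Nat.ble (ge (T 11) i j k) 67108864))

end

end Pool.Agent.Lib.MP_f3b2fd_co.KEP.Hu
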