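import Pool.Agent.Lib.MP_f3b2fd_co.KEP.B.H.Tb
import Pool.Agent.Lib.MP_f3b2fd_co.KEP.B.H.W0

/-! Kernel checks of the weighted tables. -/

set_option autoImplicit false

namespace Pool.Agent.Lib.MP_f3b2fd_co.KEP.Hu

theorem k_w0 : all3 31 (wB 1 (tb 0)) = true := by decide +kernel

end Pool.Agent.Lib.MP_f3b2fd_co.KEP.Hu
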