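import Pool.Agent.Lib.MP_f3b2fd_co.KEP.B.H.Tb
import Pool.Agent.Lib.MP_f3b2fd_co.KEP.B.H.W0

/-! Kernel checks of the weighted tables. -/

set_option autoImplicit false

namespace Pool.Agent.Lib.MP_f3b2fd_co.KEP.Hu

theorem k_w1 : all3 16 (wB 2 (tb 1)) = true := by decide +kernel

theorem k_w2 : all3 8 (wB 4 (tb 2)) = true := by decide +kernel

theorem k_l0 : all3 32 (leB (tb 0)) = true := by decide +kernel

theorem k_l1 : all3 32 (leB (tb 1)) = true := by decide +kernel

theorem k_l2 : all3 32 (leB (tb 2)) = true := by decide +kernel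


end Pool.Agent.Lib.MP_f3b2fd_co.KEP.Hu
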