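import Pool.Agent.Lib.MP_f3b2fd_co.KEP.B.H.W1
import Pool.Agent.Lib.MP_f3b2fd_co.KEP.B.H.K0
import Pool.Agent.Lib.MP_f3b2fd_co.KEP.B.H.K1
import Pool.Agent.Lib.MP_f3b2fd_co.KEP.B.H.K2
import Pool.Agent.Lib.MP_f3b2fd_co.KEP.B.H.K3
import Pool.Agent.Lib.MP_f3b2fd_co.KEP.B.H.K4
import Pool.Agent.Lib.MP_f3b2fd_co.KEP.B.H.K5

/-! The grid tables enclose the angles. -/

set_option autoImplicit false

open Real Set

namespace Pool.Agent.Lib.MP_f3b2fd_co.KEP.Hu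

open KL (lane val HullS gr fn wf)

theorem ge_eq (T : ℕ → ℕ) (i j : ℕ) {k : ℕ} (hk : k < 32) :
    lane (T i) (32 * j + k) = ge T i j k := by
  obtain ⟨w, hw, e⟩ : ∃ w, w = 2048 ∧ cR = 2 ^ w - 1 := ⟨2048, rfl, by decide +kernel⟩
  show _ = ((T i >>> (2048 * j) &&& cR) >>> (64 * k)) &&& (2 ^ 64 - 1)
  rw [e, lane, Nat.and_two_pow_sub_one_eq_mod, Nat.and_two_pow_sub_one_eq_mod]
  apply Nat.eq_of_testBit_eq
  intro t
  simp only [Nat.testBit_mod_two_pow, Nat.testBit_shiftRight]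
  by_cases h : t < 64
  · rw [show 64 * (32 * j + k) + t = 2048 * j + (64 * k + t) by ring,
      decide_eq_true (show 64 * k + t < w by omega), Bool.true_and]
  · simp [h]

theorem ok_bit {T : ℕ → ℕ} {i j k : ℕ} (hk : k < 32) (h : okb T i j k = true) :
    (lane (T i) (32 * j + k)).testBit 63 = true := by
  have a : 2 ^ 63 ≤ ge T i j k := Nat.le_of_ble_eq_true h
  rw [← ge_eq T i j hk] at a
  exact Nat.testBit_of_two_pow_le_and_two_pow_add_one_gt a (Nat.mod_lt _ (by norm_num))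

/-- three tables that are permutations of one another. -/
def Pm (A B C : ℕ → ℕ) : Prop := ∀ i j k, i < 32 → j < 32 → k < 32 →
  lane (A i) (32 * j + k) = ge B i k j ∧ lane (B i) (32 * j + k) = ge B i j k ∧
    lane (C i) (32 * j + k) = ge B k j i ∧ ge B i j k ≤ 2 ^ 26

theorem pm_of {A B C : ℕ → ℕ} (h : all3 32 (prmB A B C) = true) : Pm A B C := by
  intro i j k hi hj hk
  obtain ⟨a, b⟩ := an_eq.1 (all3_eq h hi hj hk)
  obtain ⟨b, c⟩ := an_eq.1 b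
  rw [ge_eq A i j hk, ge_eq B i j hk, ge_eq C i j hk]
  exact ⟨Nat.eq_of_beq_eq_true a, rfl, Nat.eq_of_beq_eq_true b, Nat.le_of_ble_eq_true c⟩

theorem Pm.tri {A B C : ℕ → ℕ} (h : Pm A B C) {i j k : ℕ} (hi : i ≤ 30) (hj : j ≤ 30)
    (hk : k ≤ 30) (a b c : ℝ) :
    KL.tri (fun i j k => lane (A i) (32 * j + k)) i j k a b c = KL.tri (ge B) i k j a c b ∧
    KL.tri (fun i j k => lane (B i) (32 * j + k)) i j k a b c = KL.tri (ge B) i j k a b c ∧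
    KL.tri (fun i j k => lane (C i) (32 * j + k)) i j k a b c = KL.tri (ge B) k j i c b a := by
  have i0 : i < 32 := by omega
  have i1 : i + 1 < 32 := by omega
  have j0 : j < 32 := by omega
  have j1 : j + 1 < 32 := by omega
  have k0 : k < 32 := by omega
  have k1 : k + 1 < 32 := by omega
  simp only [KL.tri, h _ _ _ i0 j0 k0, h _ _ _ i0 j0 k1, h _ _ _ i0 j1 k0, h _ _ _ i0 j1 k1,
    h _ _ _ i1 j0 k0, h _ _ _ i1 j0 k1, h _ _ _ i1 j1 k0, h _ _ _ i1 j1 k1, true_and]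
  constructor <;> ring

theorem Pm.le {A B C : ℕ → ℕ} (h : Pm A B C) {i j k : ℕ} (hi : i < 32) (hj : j < 32)
    (hk : k < 32) : lane (A i) (32 * j + k) ≤ 2 ^ 26 ∧ lane (B i) (32 * j + k) ≤ 2 ^ 26 ∧
      lane (C i) (32 * j + k) ≤ 2 ^ 26 := by
  obtain ⟨a, b, c, d⟩ := h i j k hi hj hk
  rw [a, b, c]
  exact ⟨(h i k j hi hk hj).2.2.2, d, (h k j i hk hj hi).2.2.2⟩

theorem lev (s : ℕ) (hs : s ≤ 2) : Hb (2 ^ s) (tb s 1) (tb s 7) (tb s 12) ∧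
    Pm (tb s 0) (tb s 1) (tb s 2) ∧ Pm (tb s 6) (tb s 7) (tb s 8) ∧
    ∀ m i, (m = 3 ∨ m = 4 ∨ m = 5) → tb s m i = 0 := by
  have h0 := hb0 k_sq k_vtx k_cell
  obtain rfl | rfl | rfl : s = 0 ∨ s = 1 ∨ s = 2 := by omega
  · refine ⟨h0, pm_of k_p0, pm_of k_q0, fun m i h => ?_⟩
    rcases h with rfl | rfl | rfl <;> rfl
  · refine ⟨hb_crs (n := 2) (by omega) (fun i h => by omega) h0 k_c1, pm_of k_p1, pm_of k_q1,
      fun m i h => ?_⟩
    rcases h with rfl | rfl | rfl <;> rfl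
  · refine ⟨hb_crs (n := 4) (by omega) (fun i h => by omega) h0 k_c2, pm_of k_p2, pm_of k_q2,
      fun m i h => ?_⟩
    rcases h with rfl | rfl | rfl <;> rfl

theorem lev2 (s : ℕ) (hs : s ≤ 2) : all3 32 (leB (tb s)) = true ∧
    ∀ i j k, 2 ^ s * i ≤ 30 → 2 ^ s * j ≤ 30 → 2 ^ s * k ≤ 30 → wB (2 ^ s) (tb s) i j k = true := by
  obtain rfl | rfl | rfl : s = 0 ∨ s = 1 ∨ s = 2 := by omega
  · exact ⟨k_l0, fun i j k a b c => all3_eq k_w0 (by omega) (by omega) (by omega)⟩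
  · exact ⟨k_l1, fun i j k a b c => all3_eq k_w1 (by omega) (by omega) (by omega)⟩
  · exact ⟨k_l2, fun i j k a b c => all3_eq k_w2 (by omega) (by omega) (by omega)⟩

theorem cell (s i j k : ℕ) (a b c : ℝ) (h1 : s ≤ 2) (hi : 2 ^ s * i ≤ 30) (hj : 2 ^ s * j ≤ 30)
    (hk : 2 ^ s * k ≤ 30) (a0 : 0 ≤ a) (a1 : a ≤ 1) (b0 : 0 ≤ b) (b1 : b ≤ 1) (c0 : 0 ≤ c)
    (c1 : c ≤ 1) (lx : gr s (i + a) ≤ 23 / 32) (ly : gr s (j + b) ≤ 23 / 32)
    (lz : gr s (k + c) ≤ 23 / 32)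
    (hr : 425 / 256 * cof (gr s (i + a)) (gr s (j + b)) (gr s (k + c)) <
      4 * gram (gr s (i + a)) (gr s (j + b)) (gr s (k + c))) :
    at8 (okb (tb s 12)) i j k = true ∧ ∀ m < 3, KL.tri (val tb s m) i j k a b c ≤
        2 ^ 24 * fn m (gr s (i + a)) (gr s (j + b)) (gr s (k + c)) ∧
      2 ^ 24 * fn m (gr s (i + a)) (gr s (j + b)) (gr s (k + c)) ≤
        2 ^ 26 - KL.tri (val tb s (m + 6)) i j k a b c := by
  obtain ⟨H, A, B, -⟩ := lev s h1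
  have p : 0 < 2 ^ s := by positivity
  have u : ∀ {i : ℕ}, 2 ^ s * i ≤ 30 → i ≤ 30 := fun h => (Nat.le_mul_of_pos_left _ p).trans h
  have A := A.tri (u hi) (u hj) (u hk) a b c
  have B := B.tri (u hi) (u hj) (u hk) a b c
  have g : ∀ t, gr s t = ((2 ^ s : ℕ) : ℝ) * t / 32 - 1 / 4 := fun t => by simp [gr]
  have H0 := H i k j a c b _ _ _ hi hk hj ⟨a0, a1⟩ ⟨c0, c1⟩ ⟨b0, b1⟩ (g _) (g _) (g _) lx lz ly
    (by convert hr using 2 <;> simp only [gram, cof] <;> ring)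
  have H1 := H i j k a b c _ _ _ hi hj hk ⟨a0, a1⟩ ⟨b0, b1⟩ ⟨c0, c1⟩ (g _) (g _) (g _) lx ly lz hr
  have H2 := H k j i c b a _ _ _ hk hj hi ⟨c0, c1⟩ ⟨b0, b1⟩ ⟨a0, a1⟩ (g _) (g _) (g _) lz ly lx
    (by convert hr using 2 <;> simp only [gram, cof] <;> ring)
  refine ⟨H1.1, fun m hm => ?_⟩
  obtain rfl | rfl | rfl : m = 0 ∨ m = 1 ∨ m = 2 := by omega
  · exact ⟨A.1.trans_le H0.2.1, H0.2.2.trans_eq (congrArg _ B.1.symm)⟩
  · rw [show fn 1 _ _ _ = _ from ang_comm _ _ _]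
    exact ⟨A.2.1.trans_le H1.2.1, H1.2.2.trans_eq (congrArg _ B.2.1.symm)⟩
  · exact ⟨A.2.2.trans_le H2.2.1, H2.2.2.trans_eq (congrArg _ B.2.2.symm)⟩

theorem tri_val (s m : ℕ) (i j : ℕ) {k : ℕ} (hk : k ≤ 30) (a b c : ℝ) :
    KL.tri (val tb s m) i j k a b c = KL.tri (ge (tb s m)) i j k a b c := by
  simp only [KL.tri, val, ge_eq _ _ _ (show k < 32 by omega), ge_eq _ _ _ (show k + 1 < 32 by omega)]

theorem hullS {hs : ℝ} (h : hs ^ 2 = 425 / 256) : HullS hs tb where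
  le s m i j k h1 h2 hi hj hk := by
    obtain ⟨-, a, b, c⟩ := lev s h1
    have a := a.le hi hj hk
    have b := b.le hi hj hk
    obtain ⟨d1, d2⟩ := an_eq.1 (all3_eq (lev2 s h1).1 hi hj hk)
    obtain ⟨d2, d3⟩ := an_eq.1 d2
    by_cases e : m = 3 ∨ m = 4 ∨ m = 5
    · rw [val, c m i e]
      simp [lane]
    · obtain rfl | rfl | rfl | rfl | rfl | rfl | rfl | rfl | rfl :
        m = 0 ∨ m = 1 ∨ m = 2 ∨ m = 6 ∨ m = 7 ∨ m = 8 ∨ m = 9 ∨ m = 10 ∨ m = 11 := by omega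
      exacts [a.1, a.2.1, a.2.2, b.1, b.2.1, b.2.2,
        (ge_eq _ i j hk).trans_le (Nat.le_of_ble_eq_true d1),
        (ge_eq _ i j hk).trans_le (Nat.le_of_ble_eq_true d2),
        (ge_eq _ i j hk).trans_le (Nat.le_of_ble_eq_true d3)]
  cell s i j k a b c h1 hi hj hk a0 a1 b0 b1 c0 c1 lx ly lz _ hr := by
    obtain ⟨u, v⟩ := cell s i j k a b c h1 hi hj hk a0 a1 b0 b1 c0 c1 lx ly lz (h ▸ hr)
    have : k ≤ 30 := (Nat.le_mul_of_pos_left _ (by positivity)).trans hk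
    exact ⟨fun d e f hd he hf => ok_bit (by omega) (at8_eq.1 u d e f hd he hf), v⟩
  wd s i j k a b c h1 hi hj hk a0 a1 b0 b1 c0 c1 lx ly lz _ hr m hm := by
    obtain ⟨u, v⟩ := cell s i j k a b c h1 hi hj hk a0 a1 b0 b1 c0 c1 lx ly lz (h ▸ hr)
    have k3 : k ≤ 30 := (Nat.le_mul_of_pos_left _ (by positivity)).trans hk
    have w := (lev2 s h1).2 i j k hi hj hk
    unfold wB at w
    rw [u] at w
    obtain ⟨w0, w1⟩ := an_eq.1 w
    obtain ⟨w1, w2⟩ := an_eq.1 w1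
    have hn : 2 ^ s = 1 ∨ 2 ^ s = 2 ∨ 2 ^ s = 4 := by
      obtain rfl | rfl | rfl : s = 0 ∨ s = 1 ∨ s = 2 := by omega
      all_goals simp
    have g : ∀ t, gr s t = ((2 ^ s : ℕ) : ℝ) * t / 32 - 1 / 4 := fun t => by simp [gr]
    have v0 := v 0 (by omega)
    have v1 := v 1 (by omega)
    have v2 := v 2 (by omega)
    simp only [tri_val _ _ _ _ k3, Nat.reduceAdd] at v0 v1 v2
    rw [tri_val _ _ _ _ k3]
    obtain ⟨A, hA⟩ : ∃ A, A = fn 0 (gr s (i + a)) (gr s (j + b)) (gr s (k + c)) := ⟨_, rfl⟩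
    obtain ⟨B, hB⟩ : ∃ A, A = fn 1 (gr s (i + a)) (gr s (j + b)) (gr s (k + c)) := ⟨_, rfl⟩
    obtain ⟨C, hC⟩ : ∃ A, A = fn 2 (gr s (i + a)) (gr s (j + b)) (gr s (k + c)) := ⟨_, rfl⟩
    unfold wf
    rw [← hA] at v0 ⊢
    rw [← hB] at v1 ⊢
    rw [← hC] at v2 ⊢
    obtain rfl | rfl | rfl : m = 0 ∨ m = 1 ∨ m = 2 := by omega
    · have := wc_sound hn a0 a1 b0 b1 c0 c1 (g _) w0 (w := 2 ^ 24 * (A + B - C))
        (by rw [tri_q3]; linarith [v0.2, v1.2, v2.1])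
      rw [if_pos rfl]
      linarith
    · have := wc_sound hn b0 b1 c0 c1 a0 a1 (g _) w1 (w := 2 ^ 24 * (B + C - A))
        (by rw [tri_r1 (q3 _ _ _), tri_q3]; linarith [v0.1, v1.2, v2.2])
      rw [tri_r1] at this
      rw [if_neg (by omega), if_pos rfl]
      linarith
    · have := wc_sound hn c0 c1 a0 a1 b0 b1 (g _) w2 (w := 2 ^ 24 * (C + A - B))
        (by rw [tri_r2 (q3 _ _ _), tri_q3]; linarith [v0.2, v1.1, v2.2])
      rw [tri_r2] at this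
      rw [if_neg (by omega), if_neg (by omega)]
      linarith

end Pool.Agent.Lib.MP_f3b2fd_co.KEP.Hu
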