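import Pool.Agent.Lib.MP_f3b2fd_co.KEP.B.H.Tri

/-! Bounds on a cell from the values at its centre. -/

set_option autoImplicit false

open Real Set

namespace Pool.Agent.Lib.MP_f3b2fd_co.KEP.Hu

theorem ab {a b s t : ℝ} (h1 : |a| ≤ s) (h2 : |b| ≤ t) : |a * b| ≤ s * t := by
  rw [abs_mul]
  exact mul_le_mul h1 h2 (abs_nonneg _) ((abs_nonneg _).trans h1)

theorem ab1 (a : ℝ) {e : ℝ} (h : |e| ≤ 1) : |a * e| ≤ |a| := by
  simpa using ab (le_refl |a|) h

theorem ab2 {a e : ℝ} (h' : |a| ≤ 1) (h : |e| ≤ 1) : |a * e| ≤ 1 := by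
  simpa using ab h' h

section
variable {P Q R e1 e2 e3 : ℝ} (h1 : |e1| ≤ 1) (h2 : |e2| ≤ 1) (h3 : |e3| ≤ 1)
include h1

theorem devU : 4096 - (|P| + 1) ^ 2 ≤ 4096 * (1 - ((P + e1) / 64) ^ 2) := by
  have a := abs_le.1 (ab1 P h1)
  have b := abs_le.1 (ab2 h1 h1)
  have c := sq_abs P
  nlinarith

include h2 h3

theorem devA : |4096 * ((R + e3) / 64 - (P + e1) / 64 * ((Q + e2) / 64)) - (64 * R - P * Q)| ≤
    65 + |P| + |Q| := by
  have a := abs_le.1 (ab1 P h2)
  have b := abs_le.1 (ab1 Q h1)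
  have c := abs_le.1 (ab2 h1 h2)
  have d := abs_le.1 h3
  rw [abs_le]
  constructor <;> nlinarith

theorem devT : |262144 * (2 * ((P + e1) / 64) * ((Q + e2) / 64 - (P + e1) / 64 * ((R + e3) / 64)) -
      (R + e3) / 64 * (1 - ((P + e1) / 64) ^ 2)) - (128 * (P * Q) - R * (4096 + P ^ 2))| ≤
    128 * (|P| + |Q| + 1) + 4096 + (|P| + 1) ^ 2 + |R| * (2 * |P| + 1) := by
  have a := abs_le.1 (ab1 P h2)
  have b := abs_le.1 (ab1 Q h1)
  have c := abs_le.1 (ab2 h1 h2)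
  have d := abs_le.1 h3
  have k : |P + e1| ≤ |P| + 1 := (abs_add_le _ _).trans (by linarith)
  have f := abs_le.1 (ab (ab k k) h3)
  have g := abs_le.1 (ab (le_refl |R|) (ab1 P h1))
  have h := abs_le.1 (ab (le_refl |R|) (ab2 h1 h1))
  rw [abs_le]
  constructor <;> nlinarith

theorem devG : (4096 - P ^ 2) * (4096 - Q ^ 2) - (64 * R - P * Q) ^ 2 -
      128 * (|64 * R - P * Q| + |64 * Q - P * R| + |64 * P - Q * R| + |P| + |Q| + |R| + 1) -
      12288 ≤ 16777216 * gram ((P + e1) / 64) ((Q + e2) / 64) ((R + e3) / 64) := by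
  have a1 := abs_le.1 (ab1 (64 * P - Q * R) h1)
  have a2 := abs_le.1 (ab1 (64 * Q - P * R) h2)
  have a3 := abs_le.1 (ab1 (64 * R - P * Q) h3)
  have b1 := abs_le.1 (ab2 h1 h1)
  have b2 := abs_le.1 (ab2 h2 h2)
  have b3 := abs_le.1 (ab2 h3 h3)
  have c1 := abs_le.1 (ab1 P (ab2 h2 h3))
  have c2 := abs_le.1 (ab1 Q (ab2 h1 h3))
  have c3 := abs_le.1 (ab1 R (ab2 h1 h2))
  have d := abs_le.1 (ab2 h1 (ab2 h2 h3))
  unfold gram
  nlinarith

theorem devR : 4194304 * (4 * gram ((P + e1) / 64) ((Q + e2) / 64) ((R + e3) / 64) -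
      425 / 256 * cof ((P + e1) / 64) ((Q + e2) / 64) ((R + e3) / 64)) ≤
    (4096 - P ^ 2) * (4096 - Q ^ 2) - (64 * R - P * Q) ^ 2 -
      1700 * (2 * ((64 - P) * (64 - Q) + (64 - Q) * (64 - R) + (64 - R) * (64 - P)) -
        (64 - P) ^ 2 - (64 - Q) ^ 2 - (64 - R) ^ 2) +
      8 * (|425 * (64 + P - Q - R) - 16 * (64 * P - Q * R)| +
        |425 * (64 + Q - P - R) - 16 * (64 * Q - P * R)| +
        |425 * (64 + R - P - Q) - 16 * (64 * R - P * Q)| +
        |16 * P - 425| + |16 * Q - 425| + |16 * R - 425| + 16) := by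
  have a1 := abs_le.1 (ab1 (425 * (64 + P - Q - R) - 16 * (64 * P - Q * R)) h1)
  have a2 := abs_le.1 (ab1 (425 * (64 + Q - P - R) - 16 * (64 * Q - P * R)) h2)
  have a3 := abs_le.1 (ab1 (425 * (64 + R - P - Q) - 16 * (64 * R - P * Q)) h3)
  have b1 := mul_self_nonneg e1
  have b2 := mul_self_nonneg e2
  have b3 := mul_self_nonneg e3
  have c1 := abs_le.1 (ab1 (16 * P - 425) (ab2 h2 h3))
  have c2 := abs_le.1 (ab1 (16 * Q - 425) (ab2 h1 h3))
  have c3 := abs_le.1 (ab1 (16 * R - 425) (ab2 h1 h2))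
  have d := abs_le.1 (ab2 h1 (ab2 h2 h3))
  unfold gram cof
  nlinarith

end

theorem devBC {B C B0 C0 s t : ℝ} (h1 : |B - B0| ≤ s) (h2 : |C - C0| ≤ t) :
    |B * C - B0 * C0| ≤ |B0| * t + |C0| * s + s * t := by
  have a := abs_le.1 (ab (le_refl |B0|) h2)
  have b := abs_le.1 (ab (le_refl |C0|) h1)
  have c := abs_le.1 (ab h1 h2)
  rw [abs_le]
  constructor <;> nlinarith

theorem rat {N D n d : ℝ} (h1 : N ≤ n) (h0 : 0 ≤ n) (hd : 0 < d) (h2 : d ≤ D) : N / D ≤ n / d :=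
  (div_le_div_of_nonneg_right h1 (hd.le.trans h2)).trans (div_le_div_of_nonneg_left h0 hd h2)

/-- the second derivatives from bounds of the numerators and of the denominators. -/
theorem curv {σ x y z g s U nT nB nA : ℝ} (hs : 0 < s) (hg : s ^ 2 ≤ g) (hU : 0 < U)
    (k1 : g ≤ 16777216 * gram x y z) (k2 : U ≤ 4096 * (1 - x ^ 2)) (t0 : 0 ≤ nT) (b0 : 0 ≤ nB)
    (a0 : 0 ≤ nA) :
    (σ * (262144 * (2 * x * (y - x * z) - z * (1 - x ^ 2))) ≤ nT →
      σ * (4096 * (y - x * z) * (4096 * (x - y * z))) ≤ nB →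
      σ * angPP x y z ≤ nT * 262144 / (U * U * s) + nB * 16777216 / (U * (g * s))) ∧
    (-(σ * (4096 * (z - x * y))) ≤ nA → σ * angRR x y z ≤ nA * 16777216 / (g * s)) := by
  have g0 : 0 < g := lt_of_lt_of_le (by positivity) hg
  have r1 : s / 4096 ≤ √(gram x y z) := le_sqrt_of_sq_le (by rw [div_pow]; linarith)
  have r2 : g / 16777216 ≤ gram x y z := by linarith
  have r3 : U / 4096 ≤ 1 - x ^ 2 := by linarith
  have r4 : g / 16777216 * (s / 4096) ≤ gram x y z * √(gram x y z) :=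
    mul_le_mul r2 r1 (by positivity) (le_trans (by positivity) r2)
  refine ⟨fun p1 p2 => ?_, fun p => ?_⟩
  · have q1 := rat (N := σ * (2 * x * (y - x * z) - z * (1 - x ^ 2))) (n := nT / 262144)
      (by linarith) (by positivity) (by positivity)
      (mul_le_mul (pow_le_pow_left₀ (by positivity) r3 2) r1 (by positivity) (sq_nonneg _))
    have q2 := rat (N := σ * ((y - x * z) * (x - y * z))) (n := nB / 16777216)
      (by linarith) (by positivity) (by positivity)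
      (mul_le_mul r3 r4 (by positivity) (le_trans (by positivity) r3))
    rw [angPP, mul_add, ← mul_div_assoc, ← mul_div_assoc]
    refine (add_le_add q1 q2).trans_eq ?_
    field_simp
    ring
  · have q := rat (N := σ * -(z - x * y)) (n := nA / 4096) (by linarith) (by positivity)
      (by positivity) r4
    rw [angRR, ← mul_div_assoc]
    refine q.trans_eq ?_
    field_simp

end Pool.Agent.Lib.MP_f3b2fd_co.KEP.Hu
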