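import Mathlib

/-! The checker of the grid tables: definitions. -/

set_option autoImplicit false

namespace Pool.Agent.Lib.MP_f3b2fd_co.KEP.Hu

noncomputable section

/-- Evaluate `v` before continuing. -/
def fc (v : ℕ) (k : ℕ → Bool) : Bool :=
  Nat.rec (motive := fun _ => Bool) false (fun m _ => k m) (Nat.add v 1)

def an (a b : Bool) : Bool := Bool.rec false b a
def orr (a b : Bool) : Bool := Bool.rec b true a
def alln (n : ℕ) (f : ℕ → Bool) : Bool :=
  Nat.rec (motive := fun _ => Bool) true (fun i r => an (f i) r) n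
def all3 (n : ℕ) (f : ℕ → ℕ → ℕ → Bool) : Bool :=
  alln n fun i => alln n fun j => alln n fun k => f i j k
def ad (a b : ℕ) : ℕ := Nat.add (Nat.sub a b) (Nat.sub b a)
def cR : ℕ := Nat.sub (Nat.pow 2 2048) 1
def row (T : ℕ → ℕ) (i j : ℕ) : ℕ := Nat.land (Nat.shiftRight (T i) (Nat.mul 2048 j)) cR
def ge (T : ℕ → ℕ) (i j k : ℕ) : ℕ :=
  Nat.land (Nat.shiftRight (row T i j) (Nat.mul 64 k)) 18446744073709551615
def okb (T : ℕ → ℕ) (i j k : ℕ) : Bool := Nat.ble 9223372036854775808 (ge T i j k)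

def nth (l : List ℕ) : ℕ → ℕ :=
  List.rec (motive := fun _ => ℕ → ℕ) (fun _ => 0)
    (fun a _ ih n => Nat.rec (motive := fun _ => ℕ) a (fun m _ => ih m) n) l

/-- a test at the eight vertices of a cell. -/
def at8 (f : ℕ → ℕ → ℕ → Bool) (i j k : ℕ) : Bool :=
  fc (Nat.succ i) fun i' => fc (Nat.succ j) fun j' => fc (Nat.succ k) fun k' =>
    an (f i j k) (an (f i j k') (an (f i j' k) (an (f i j' k')
      (an (f i' j k) (an (f i' j k') (an (f i' j' k) (f i' j' k')))))))

def nw (g x : ℕ) (k : ℕ → Bool) : Bool := fc (Nat.shiftRight (Nat.add x (Nat.div g x)) 1) k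

def ee (U1 U2 r gs t1 t2 q a : ℕ) : ℕ :=
  t1 * 33554432 / (U1 * U1 * r) + t2 * 33554432 / (U2 * U2 * r) + q * 2147483648 / (U1 * gs) +
    q * 2147483648 / (U2 * gs) + a * 2147483648 / gs + 5

def fit (E : ℕ → ℕ) (ep em i j k : ℕ) : Bool :=
  fc (ge E i j k) fun e =>
    an (Nat.ble ep (Nat.mod e 2147483648)) (Nat.ble em (Nat.mod (Nat.div e 2147483648) 2147483648))

/-- the curvature on a cell. -/
def good (E : ℕ → ℕ) (i j k u v s du dv ds ap am bp bm cp cm a b c UV : ℕ) : Bool :=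
  fc (UV - (a * a + 128 * (a + b + c + du + dv + ds + 1) + 12288)) fun g =>
  nw g 2048 fun x => nw g x fun x => nw g x fun x => nw g x fun x => nw g x fun x =>
  fc (x - 1) fun r => an (an (Nat.ble 1 r) (Nat.ble (r * r) g))
  (fc (4096 - (du + 1) * (du + 1)) fun U1 => fc (4096 - (dv + 1) * (dv + 1)) fun U2 =>
  fc (g * r) fun gs => fc (65 + du + dv) fun dA => fc (65 + du + ds) fun dB =>
  fc (65 + dv + ds) fun dC =>
  fc (128 * (u * v + 256) + 16 * (4096 + du * du)) fun tp1 =>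
  fc (2048 * (u + v) + s * (4096 + du * du)) fun tm1 =>
  fc (128 * (u * v + 256) + 16 * (4096 + dv * dv)) fun tp2 =>
  fc (2048 * (u + v) + s * (4096 + dv * dv)) fun tm2 =>
  fc (128 * (du + dv + 1) + 4096 + (du + 1) * (du + 1) + ds * (2 * du + 1)) fun dT1 =>
  fc (128 * (dv + du + 1) + 4096 + (dv + 1) * (dv + 1) + ds * (2 * dv + 1)) fun dT2 =>
  fc (bp * cp + bm * cm) fun qp => fc (bp * cm + bm * cp) fun qm =>
  fc (b * dC + c * dB + dB * dC) fun dQ =>
  fc (ee U1 U2 r gs (tp1 + dT1 - tm1) (tp2 + dT2 - tm2) (qp + dQ - qm) (am + dA - ap)) fun ep =>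
  fc (ee U1 U2 r gs (tm1 + dT1 - tp1) (tm2 + dT2 - tp2) (qm + dQ - qp) (ap + dA - am)) fun em =>
  at8 (fit E ep em) i j k)

/-- a cell is empty or its curvature is bounded by the table `E`. -/
def cellB (E : ℕ → ℕ) (i j k : ℕ) : Bool :=
  fc (2 * i + 1) fun u => fc (2 * j + 1) fun v => fc (2 * k + 1) fun s =>
  fc (ad u 16) fun du => fc (ad v 16) fun dv => fc (ad s 16) fun ds =>
  fc (64 * s + 16 * (u + v)) fun ap => fc (1280 + u * v) fun am =>
  fc (64 * v + 16 * (u + s)) fun bp => fc (1280 + u * s) fun bm =>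
  fc (64 * u + 16 * (v + s)) fun cp => fc (1280 + v * s) fun cm =>
  fc (ad ap am) fun a => fc (ad bp bm) fun b => fc (ad cp cm) fun c =>
  fc ((4096 - du * du) * (4096 - dv * dv)) fun UV =>
  fc (80 - u) fun α => fc (80 - v) fun β => fc (80 - s) fun γ =>
  orr (Nat.ble (UV + 1700 * (α * α + β * β + γ * γ) +
      8 * (ad (425 * (80 + u) + 16 * cm) (425 * (v + s) + 16 * cp) +
        ad (425 * (80 + v) + 16 * bm) (425 * (u + s) + 16 * bp) +
        ad (425 * (80 + s) + 16 * am) (425 * (u + v) + 16 * ap) +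
        ad (16 * u) 681 + ad (16 * v) 681 + ad (16 * s) 681 + 16))
      (a * a + 3400 * (α * β + β * γ + γ * α)))
    (good E i j k u v s du dv ds ap am bp bm cp cm a b c UV)

def su (n y : ℕ) : ℕ :=
  (n * (362880 * 2 ^ 200 + 3024 * 2 ^ 100 * (y * y) + y * y * (y * y)) -
    n * (60480 * 2 ^ 150 * y + 72 * 2 ^ 50 * (y * y * y))) / (362880 * 2 ^ 185) + 1

def sl (n y : ℕ) : ℕ :=
  (n * (39916800 * 2 ^ 250 + 332640 * 2 ^ 150 * (y * y) + 110 * 2 ^ 50 * (y * y * (y * y))) -
    n * (6652800 * 2 ^ 200 * y + 7920 * 2 ^ 100 * (y * y * y) + y * y * (y * y) * y)) /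
    (39916800 * 2 ^ 235)

/-- the angle at a grid point; `W i` is the integer part of a square root. -/
def vtxB (W L C O E : ℕ → ℕ) (i j k : ℕ) : Bool :=
  fc (ge E i j k) fun e => orr (Nat.beq e 0)
  (fc (ge L i j k + 16 * (e % 2147483648)) fun n =>
  fc (ge C i j k + 16 * (e / 2147483648 % 2147483648)) fun c =>
  fc (67108864 - c) fun n' => fc (n * n) fun y => fc (n' * n') fun y' =>
  fc (su n y) fun s => fc (sl n' y') fun s' =>
  fc (W i * W j) fun m => fc ((W i + 1) * (W j + 1)) fun m' =>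
  fc ((32 * k + 8 * (i + j)) * 2 ^ 130) fun ap => fc ((320 + i * j) * 2 ^ 130) fun am =>
  an (okb O i j k) (an (Nat.ble n 50331648) (an (Nat.ble n' 50331648) (an (Nat.ble c 67108864)
    (an (Nat.ble (ap + 2 * (s * s) * m') (m * 2 ^ 80 + am))
      (Nat.ble (m' * 2 ^ 80 + am) (ap + 2 * (s' * s') * m)))))))

def sqB (W : ℕ → ℕ) (i : ℕ) : Bool :=
  an (Nat.ble (W i * W i + i * i * 2 ^ 50) ((960 + 16 * i) * 2 ^ 50))
    (Nat.ble ((960 + 16 * i) * 2 ^ 50) ((W i + 1) * (W i + 1) + i * i * 2 ^ 50))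

/-- `n ^ 3` times the trilinear interpolation at a point with denominators `n`. -/
def triN (T : ℕ → ℕ) (i j k i' j' k' d d' e e' f f' : ℕ) : ℕ :=
  d' * (e' * (f' * ge T i j k + f * ge T i j k') + e * (f' * ge T i j' k + f * ge T i j' k')) +
    d * (e' * (f' * ge T i' j k + f * ge T i' j k') + e * (f' * ge T i' j' k + f * ge T i' j' k'))

/-- a coarse cell. -/
def crsB (n : ℕ) (L C O L' C' O' : ℕ → ℕ) (i j k : ℕ) : Bool :=
  Bool.rec
    (all3 n fun d e f => fc (n * i + d) fun I => fc (n * j + e) fun J => fc (n * k + f) fun K =>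
      Bool.rec true false (at8 (okb O) I J K))
    (fc (Nat.succ i) fun i' => fc (Nat.succ j) fun j' => fc (Nat.succ k) fun k' =>
      alln (Nat.succ n) fun d => fc (n * i + d) fun I => fc (n - d) fun d' =>
      alln (Nat.succ n) fun e => fc (n * j + e) fun J => fc (n - e) fun e' =>
      alln (Nat.succ n) fun f => fc (n * k + f) fun K => fc (n - f) fun f' =>
      Bool.rec true
        (an (Nat.ble (triN L' i j k i' j' k' d d' e e' f f') (n * n * n * ge L I J K))
          (Nat.ble (triN C' i j k i' j' k' d d' e e' f f') (n * n * n * ge C I J K)))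
        (okb O I J K))
    (at8 (okb O') i j k)

/-- the other tables are permutations. -/
def prmB (A B C : ℕ → ℕ) (i j k : ℕ) : Bool :=
  an (Nat.beq (ge A i j k) (ge B i k j)) (an (Nat.beq (ge C i j k) (ge B k j i))
    (Nat.ble (ge B i j k) 67108864))

end

end Pool.Agent.Lib.MP_f3b2fd_co.KEP.Hu
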