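import Pool.Agent.Lib.MP_f3b2fd_co.KEP.B.H.Chk
import Pool.Agent.Lib.MP_f3b2fd_co.KEP.B.H.Cell

/-! Soundness of the checks on the finest grid. -/

set_option autoImplicit false

open Real Set

namespace Pool.Agent.Lib.MP_f3b2fd_co.KEP.Hu

theorem fc_eq (v : ℕ) (k : ℕ → Bool) : fc v k = k v := by cases v <;> rfl
theorem an_eq {a b : Bool} : an a b = true ↔ a = true ∧ b = true := by
  cases a <;> simp [an]
theorem orr_eq {a b : Bool} : orr a b = true ↔ a = true ∨ b = true := by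
  cases a <;> simp [orr]

theorem alln_eq {n : ℕ} {f : ℕ → Bool} (h : alln n f = true) : ∀ i < n, f i = true := by
  induction n with
  | zero => intro i hi; omega
  | succ n ih =>
    obtain ⟨a, b⟩ := an_eq.1 (show an (f n) (alln n f) = true from h)
    intro i hi
    rcases Nat.lt_succ_iff_lt_or_eq.1 hi with e | rfl
    exacts [ih b i e, a]

theorem all3_eq {n : ℕ} {f : ℕ → ℕ → ℕ → Bool} (h : all3 n f = true) {i j k : ℕ} (hi : i < n)
    (hj : j < n) (hk : k < n) : f i j k = true :=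
  alln_eq (alln_eq (alln_eq h i hi) j hj) k hk

theorem at8_eq {f : ℕ → ℕ → ℕ → Bool} {i j k : ℕ} : at8 f i j k = true ↔
    ∀ d e g, d ≤ 1 → e ≤ 1 → g ≤ 1 → f (i + d) (j + e) (k + g) = true := by
  simp only [at8, fc_eq, an_eq]
  constructor
  · rintro ⟨a1, a2, a3, a4, a5, a6, a7, a8⟩ d e g hd he hg
    interval_cases d <;> interval_cases e <;> interval_cases g <;> assumption
  · intro h
    exact ⟨h 0 0 0 (by omega) (by omega) (by omega), h 0 0 1 (by omega) (by omega) (by omega),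
      h 0 1 0 (by omega) (by omega) (by omega), h 0 1 1 (by omega) (by omega) (by omega),
      h 1 0 0 (by omega) (by omega) (by omega), h 1 0 1 (by omega) (by omega) (by omega),
      h 1 1 0 (by omega) (by omega) (by omega), h 1 1 1 (by omega) (by omega) (by omega)⟩

theorem ad_cast (a b : ℕ) : (ad a b : ℝ) = |(a : ℝ) - b| := by
  show ((a - b + (b - a) : ℕ) : ℝ) = _
  rcases le_total a b with h | h
  · have : (a : ℝ) ≤ b := by exact_mod_cast h
    rw [Nat.sub_eq_zero_of_le h, zero_add, Nat.cast_sub h, abs_of_nonpos (by linarith), neg_sub]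
  · have : (b : ℝ) ≤ a := by exact_mod_cast h
    rw [Nat.sub_eq_zero_of_le h, add_zero, Nat.cast_sub h, abs_of_nonneg (by linarith)]

theorem sub_ge (a b : ℕ) : (a : ℝ) - b ≤ ((a - b : ℕ) : ℝ) := by
  have : a ≤ a - b + b := by omega
  have : (a : ℝ) ≤ ((a - b : ℕ) : ℝ) + b := by exact_mod_cast this
  linarith

theorem div_le (a b : ℕ) (hb : 0 < b) : (a : ℝ) / b ≤ ((a / b : ℕ) : ℝ) + 1 := by
  have := Nat.lt_mul_div_succ a hb
  have h : (a : ℝ) < b * (((a / b : ℕ) : ℝ) + 1) := by exact_mod_cast this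
  rw [div_le_iff₀ (by exact_mod_cast hb)]
  linarith

theorem ee_ge {U1 U2 r g t1 t2 q a : ℕ} (h1 : 0 < U1) (h2 : 0 < U2) (hr : 0 < r) (hg : 0 < g) :
    128 * (((t1 : ℝ) * 262144 / (U1 * U1 * r) + q * 16777216 / (U1 * (g * r))) +
      (t2 * 262144 / (U2 * U2 * r) + q * 16777216 / (U2 * (g * r))) + a * 16777216 / (g * r)) ≤
      (ee U1 U2 r (g * r) t1 t2 q a : ℝ) := by
  have a1 := div_le (t1 * 33554432) (U1 * U1 * r) (by positivity)
  have a2 := div_le (t2 * 33554432) (U2 * U2 * r) (by positivity)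
  have a3 := div_le (q * 2147483648) (U1 * (g * r)) (by positivity)
  have a4 := div_le (q * 2147483648) (U2 * (g * r)) (by positivity)
  have a5 := div_le (a * 2147483648) (g * r) (by positivity)
  simp only [Nat.cast_mul, Nat.cast_ofNat] at a1 a2 a3 a4 a5
  simp only [ee, Nat.cast_add, Nat.cast_ofNat]
  refine le_trans (le_of_eq ?_) ((add_le_add (add_le_add (add_le_add (add_le_add a1 a2) a3) a4)
    a5).trans (le_of_eq (by ring)))
  ring

/-- bounds of the second derivatives on a cell. -/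
def Cv (σ : ℝ) (i j k e : ℕ) : Prop := ∃ M1 M2 M3 : ℝ, 0 ≤ M1 ∧ 0 ≤ M2 ∧ 0 ≤ M3 ∧
  128 * (M1 + M2 + M3) ≤ e ∧ ∀ x ∈ Icc ((i : ℝ) / 32 - 1 / 4) (i / 32 - 1 / 4 + 1 / 32),
    ∀ y ∈ Icc ((j : ℝ) / 32 - 1 / 4) (j / 32 - 1 / 4 + 1 / 32),
    ∀ z ∈ Icc ((k : ℝ) / 32 - 1 / 4) (k / 32 - 1 / 4 + 1 / 32), 0 < gram x y z ∧
      σ * angPP x y z ≤ M1 ∧ σ * angPP y x z ≤ M2 ∧ σ * angRR x y z ≤ M3

theorem ctr {i : ℕ} {x : ℝ} (h : x ∈ Icc ((i : ℝ) / 32 - 1 / 4) (i / 32 - 1 / 4 + 1 / 32)) :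
    ∃ e, |e| ≤ 1 ∧ x = (((2 * i + 1 : ℕ) : ℝ) - 16 + e) / 64 :=
  ⟨64 * x - (2 * i + 1 - 16), abs_le.2 ⟨by linarith [h.1], by linarith [h.2]⟩, by push_cast; ring⟩

theorem ad_le {i : ℕ} (h : i < 31) : ad (2 * i + 1) 16 ≤ 45 := by
  show 2 * i + 1 - 16 + (16 - (2 * i + 1)) ≤ 45
  omega

theorem sq_a {d : ℕ} (h : d ≤ 45) : d * d ≤ 4096 := by nlinarith
theorem sq_b {d : ℕ} (h : d ≤ 45) : (d + 1) * (d + 1) < 4096 := by nlinarith

theorem cellB_sound {E : ℕ → ℕ} {i j k : ℕ} (hi : i < 31) (hj : j < 31) (hk : k < 31)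
    (h : cellB E i j k = true) :
    (∀ x ∈ Icc ((i : ℝ) / 32 - 1 / 4) (i / 32 - 1 / 4 + 1 / 32),
      ∀ y ∈ Icc ((j : ℝ) / 32 - 1 / 4) (j / 32 - 1 / 4 + 1 / 32),
      ∀ z ∈ Icc ((k : ℝ) / 32 - 1 / 4) (k / 32 - 1 / 4 + 1 / 32),
        4 * gram x y z ≤ 425 / 256 * cof x y z) ∨
    ∃ ep em, 0 < ep ∧ Cv 1 i j k ep ∧ Cv (-1) i j k em ∧ at8 (fit E ep em) i j k = true := by
  have d1 := ad_le hi
  have d2 := ad_le hj
  have d3 := ad_le hk
  have l1 : 2 * i + 1 ≤ 80 := by omega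
  have l2 : 2 * j + 1 ≤ 80 := by omega
  have l3 : 2 * k + 1 ≤ 80 := by omega
  unfold Cv
  simp only [cellB, fc_eq, orr_eq] at h
  have c1 := @ctr i
  have c2 := @ctr j
  have c3 := @ctr k
  generalize 2 * i + 1 = u at *
  generalize 2 * j + 1 = v at *
  generalize 2 * k + 1 = s at *
  obtain ⟨P, hP⟩ : ∃ P : ℝ, (u : ℝ) = P + 16 := ⟨u - 16, by ring⟩
  obtain ⟨Q, hQ⟩ : ∃ Q : ℝ, (v : ℝ) = Q + 16 := ⟨v - 16, by ring⟩
  obtain ⟨R, hR⟩ : ∃ R : ℝ, (s : ℝ) = R + 16 := ⟨s - 16, by ring⟩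
  have eu : (ad u 16 : ℝ) = |P| := by rw [ad_cast, hP]; simp
  have ev : (ad v 16 : ℝ) = |Q| := by rw [ad_cast, hQ]; simp
  have es : (ad s 16 : ℝ) = |R| := by rw [ad_cast, hR]; simp
  have ea : (ad (64 * s + 16 * (u + v)) (1280 + u * v) : ℝ) = |64 * R - P * Q| := by
    rw [ad_cast]; push_cast; rw [hP, hQ, hR]; congr 1; ring
  have eb : (ad (64 * v + 16 * (u + s)) (1280 + u * s) : ℝ) = |64 * Q - P * R| := by
    rw [ad_cast]; push_cast; rw [hP, hQ, hR]; congr 1; ring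
  have ec : (ad (64 * u + 16 * (v + s)) (1280 + v * s) : ℝ) = |64 * P - Q * R| := by
    rw [ad_cast]; push_cast; rw [hP, hQ, hR]; congr 1; ring
  rw [hP, add_sub_cancel_right] at c1
  rw [hQ, add_sub_cancel_right] at c2
  rw [hR, add_sub_cancel_right] at c3
  generalize ad u 16 = du at *
  generalize ad v 16 = dv at *
  generalize ad s 16 = ds at *
  have eUV : (((4096 - du * du) * (4096 - dv * dv) : ℕ) : ℝ) = (4096 - P ^ 2) * (4096 - Q ^ 2) := by
    rw [Nat.cast_mul, Nat.cast_sub (sq_a d1), Nat.cast_sub (sq_a d2)]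
    push_cast
    rw [eu, ev, abs_mul_abs_self, abs_mul_abs_self]
    ring
  generalize (4096 - du * du) * (4096 - dv * dv) = UV at *
  generalize ad (64 * s + 16 * (u + v)) (1280 + u * v) = a at *
  generalize ad (64 * v + 16 * (u + s)) (1280 + u * s) = b at *
  generalize ad (64 * u + 16 * (v + s)) (1280 + v * s) = c at *
  have sa := abs_mul_abs_self (64 * R - P * Q)
  rcases h with h | h
  · refine Or.inl fun x hx y hy z hz => ?_
    obtain ⟨e1, h1, rfl⟩ := c1 hx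
    obtain ⟨e2, h2, rfl⟩ := c2 hy
    obtain ⟨e3, h3, rfl⟩ := c3 hz
    have k := devR (P := P) (Q := Q) (R := R) h1 h2 h3
    have h' := (Nat.cast_le (α := ℝ)).2 (Nat.le_of_ble_eq_true h)
    simp only [Nat.cast_add, Nat.cast_mul, ad_cast, Nat.cast_sub l1, Nat.cast_sub l2,
      Nat.cast_sub l3, Nat.cast_ofNat, eUV, ea, hP, hQ, hR] at h'
    rw [show 425 * (80 + (P + 16)) + 16 * (1280 + (Q + 16) * (R + 16)) -
        (425 * (Q + 16 + (R + 16)) + 16 * (64 * (P + 16) + 16 * (Q + 16 + (R + 16)))) =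
        425 * (64 + P - Q - R) - 16 * (64 * P - Q * R) by ring,
      show 425 * (80 + (Q + 16)) + 16 * (1280 + (P + 16) * (R + 16)) -
        (425 * (P + 16 + (R + 16)) + 16 * (64 * (Q + 16) + 16 * (P + 16 + (R + 16)))) =
        425 * (64 + Q - P - R) - 16 * (64 * Q - P * R) by ring,
      show 425 * (80 + (R + 16)) + 16 * (1280 + (P + 16) * (Q + 16)) -
        (425 * (P + 16 + (Q + 16)) + 16 * (64 * (R + 16) + 16 * (P + 16 + (Q + 16)))) =
        425 * (64 + R - P - Q) - 16 * (64 * R - P * Q) by ring,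
      show 16 * (P + 16) - 681 = 16 * P - 425 by ring,
      show 16 * (Q + 16) - 681 = 16 * Q - 425 by ring,
      show 16 * (R + 16) - 681 = 16 * R - 425 by ring] at h'
    linarith
  right
  simp only [good, nw, fc_eq, an_eq] at h
  obtain ⟨⟨r1, r2⟩, h⟩ := h
  have gk : ∀ G H : ℕ, 0 < G - H → ((G - H : ℕ) : ℝ) = G - H := fun G H h =>
    Nat.cast_sub (by omega)
  have gc := gk UV (a * a + 128 * (a + b + c + du + dv + ds + 1) + 12288)
  generalize UV - (a * a + 128 * (a + b + c + du + dv + ds + 1) + 12288) = g at *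
  have r0 := Nat.le_of_ble_eq_true r1
  have rg := Nat.le_of_ble_eq_true r2
  clear r1 r2
  generalize Nat.shiftRight _ 1 - 1 = r at *
  have g0 : 0 < g := lt_of_lt_of_le (by positivity) rg
  have gc := gc g0
  have u1 : ((4096 - (du + 1) * (du + 1) : ℕ) : ℝ) = 4096 - (|P| + 1) ^ 2 := by
    rw [Nat.cast_sub (sq_b d1).le]; push_cast; rw [eu]; ring
  have u2 : ((4096 - (dv + 1) * (dv + 1) : ℕ) : ℝ) = 4096 - (|Q| + 1) ^ 2 := by
    rw [Nat.cast_sub (sq_b d2).le]; push_cast; rw [ev]; ring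
  have p1 : 0 < 4096 - (du + 1) * (du + 1) := Nat.sub_pos_of_lt (sq_b d1)
  have p2 : 0 < 4096 - (dv + 1) * (dv + 1) := Nat.sub_pos_of_lt (sq_b d2)
  generalize 4096 - (du + 1) * (du + 1) = U1 at *
  generalize 4096 - (dv + 1) * (dv + 1) = U2 at *
  have key : ∀ (σ : ℝ) (t1 t2 q n : ℕ), (σ = 1 ∨ σ = -1) →
      σ * (128 * (P * Q) - R * (4096 + P ^ 2)) +
        (128 * (|P| + |Q| + 1) + 4096 + (|P| + 1) ^ 2 + |R| * (2 * |P| + 1)) ≤ t1 →
      σ * (128 * (Q * P) - R * (4096 + Q ^ 2)) +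
        (128 * (|Q| + |P| + 1) + 4096 + (|Q| + 1) ^ 2 + |R| * (2 * |Q| + 1)) ≤ t2 →
      σ * ((64 * Q - P * R) * (64 * P - Q * R)) + (|64 * Q - P * R| * (65 + |Q| + |R|) +
        |64 * P - Q * R| * (65 + |P| + |R|) + (65 + |P| + |R|) * (65 + |Q| + |R|)) ≤ q →
      -(σ * (64 * R - P * Q)) + (65 + |P| + |Q|) ≤ n →
      ∃ M1 M2 M3 : ℝ, 0 ≤ M1 ∧ 0 ≤ M2 ∧ 0 ≤ M3 ∧
        128 * (M1 + M2 + M3) ≤ (ee U1 U2 r (g * r) t1 t2 q n : ℝ) ∧
        ∀ x ∈ Icc ((i : ℝ) / 32 - 1 / 4) (i / 32 - 1 / 4 + 1 / 32),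
        ∀ y ∈ Icc ((j : ℝ) / 32 - 1 / 4) (j / 32 - 1 / 4 + 1 / 32),
        ∀ z ∈ Icc ((k : ℝ) / 32 - 1 / 4) (k / 32 - 1 / 4 + 1 / 32), 0 < gram x y z ∧
          σ * angPP x y z ≤ M1 ∧ σ * angPP y x z ≤ M2 ∧ σ * angRR x y z ≤ M3 := by
    intro σ t1 t2 q n hσ k1 k2 k3 k4
    refine ⟨_, _, _, by positivity, by positivity, by positivity, ee_ge p1 p2 r0 g0,
      fun x hx y hy z hz => ?_⟩
    obtain ⟨e1, h1, rfl⟩ := c1 hx
    obtain ⟨e2, h2, rfl⟩ := c2 hy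
    obtain ⟨e3, h3, rfl⟩ := c3 hz
    have G := devG (P := P) (Q := Q) (R := R) h1 h2 h3
    have T1 := abs_le.1 (devT (P := P) (Q := Q) (R := R) h1 h2 h3)
    have T2 := abs_le.1 (devT (P := Q) (Q := P) (R := R) h2 h1 h3)
    have A := abs_le.1 (devA (P := P) (Q := Q) (R := R) h1 h2 h3)
    have B := abs_le.1 (devBC (devA (P := P) (Q := R) (R := Q) h1 h3 h2)
      (devA (P := Q) (Q := R) (R := P) h2 h3 h1))
    have V1 := devU (P := P) h1
    have V2 := devU (P := Q) h2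
    push_cast at gc
    rw [eUV, ea, eb, ec, eu, ev, es] at gc
    generalize (P + e1) / 64 = x at *
    generalize (Q + e2) / 64 = y at *
    generalize (R + e3) / 64 = z at *
    have gg : (g : ℝ) ≤ 16777216 * gram x y z := by linarith
    have gp : (0 : ℝ) < g := by exact_mod_cast g0
    have rr : (r : ℝ) ^ 2 ≤ g := by rw [sq]; exact_mod_cast rg
    have C1 := curv (σ := σ) (x := x) (y := y) (z := z) (U := U1) (nT := t1) (nB := q) (nA := n)
      (by exact_mod_cast r0) rr (by exact_mod_cast p1) gg (by linarith) (by positivity)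
      (by positivity) (by positivity)
    have C2 := curv (σ := σ) (x := y) (y := x) (z := z) (U := U2) (nT := t2) (nB := q) (nA := n)
      (by exact_mod_cast r0) rr (by exact_mod_cast p2) (by rwa [gram_swap]) (by linarith)
      (by positivity) (by positivity) (by positivity)
    refine ⟨by linarith, C1.1 ?_ ?_, C2.1 ?_ ?_, C1.2 ?_⟩ <;> rcases hσ with rfl | rfl <;> linarith
  have sP := abs_mul_abs_self P
  have sQ := abs_mul_abs_self Q
  refine ⟨_, _, Nat.succ_pos _, key 1 _ _ _ _ (.inl rfl) ?_ ?_ ?_ ?_,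
    key (-1) _ _ _ _ (.inr rfl) ?_ ?_ ?_ ?_, h⟩
  all_goals
    refine le_trans (le_of_eq ?_) (sub_ge _ _)
    push_cast
    simp only [hP, hQ, hR, eu, ev, es, eb, ec, sP, sQ]
    ring

end Pool.Agent.Lib.MP_f3b2fd_co.KEP.Hu
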