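import Pool.Agent.Lib.MP_f3b2fd_co.KEP.B.H.S0
import Pool.Agent.Lib.MP_f3b2fd_co.KEP.B.L.St

/-! Soundness of the checks at the grid points and on the coarse grids. -/

set_option autoImplicit false

open Real Set

namespace Pool.Agent.Lib.MP_f3b2fd_co.KEP.Hu

theorem su_ge {n : ℕ} (h : n ≤ 50331648) : sin (n / 2 ^ 25) ≤ (su n (n * n) : ℝ) / 2 ^ 40 := by
  have h' : (n : ℝ) ≤ 50331648 := by exact_mod_cast h
  refine (sin_bd (x := n / 2 ^ 25) (by positivity) (by linarith)).2.trans ?_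
  rw [su, Nat.cast_add, Nat.cast_one, le_div_iff₀ (by positivity)]
  refine le_trans ?_ (div_le _ _ (by positivity))
  refine le_trans (le_of_eq ?_) (div_le_div_of_nonneg_right (sub_ge _ _) (by positivity))
  simp only [Nat.cast_add, Nat.cast_mul, Nat.cast_pow, Nat.cast_ofNat]
  ring

theorem sl_le {n : ℕ} (h : n ≤ 50331648) : (sl n (n * n) : ℝ) / 2 ^ 40 ≤ sin (n / 2 ^ 25) := by
  have h' : (n : ℝ) ≤ 50331648 := by exact_mod_cast h
  have k : ∀ a b c : ℕ, ∀ t : ℝ, 0 ≤ t → ((a : ℝ) - b) / c ≤ t → (((a - b) / c : ℕ) : ℝ) ≤ t := by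
    intro a b c t h0 h1
    rcases le_total a b with e | e
    · rwa [Nat.sub_eq_zero_of_le e, Nat.zero_div, Nat.cast_zero]
    · exact Nat.cast_div_le.trans (by rwa [Nat.cast_sub e])
  have s0 : 0 ≤ sin ((n : ℝ) / 2 ^ 25) :=
    sin_nonneg_of_nonneg_of_le_pi (by positivity) (by linarith [pi_gt_three])
  rw [sl, div_le_iff₀ (by positivity)]
  refine k _ _ _ _ (by positivity) (le_trans (le_of_eq ?_) (mul_le_mul_of_nonneg_right
    (sin_bd (x := n / 2 ^ 25) (by positivity) (by linarith)).1 (by positivity)))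
  simp only [Nat.cast_add, Nat.cast_mul, Nat.cast_pow, Nat.cast_ofNat]
  ring

theorem ble_cast {a b : ℕ} (h : Nat.ble a b = true) : (a : ℝ) ≤ b :=
  Nat.cast_le.2 (Nat.le_of_ble_eq_true h)

theorem sq_sound {W : ℕ → ℕ} {i : ℕ} {x : ℝ} (hx : x = i / 32 - 1 / 4) (h : sqB W i = true) :
    0 ≤ 1 - x ^ 2 ∧ (W i : ℝ) / 2 ^ 30 ≤ √(1 - x ^ 2) ∧ √(1 - x ^ 2) ≤ (W i + 1) / 2 ^ 30 := by
  obtain ⟨a, b⟩ := an_eq.1 h
  have a := ble_cast a
  have b := ble_cast b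
  simp only [Nat.cast_add, Nat.cast_mul, Nat.cast_pow, Nat.cast_ofNat, Nat.cast_one] at a b
  subst hx
  have := mul_self_nonneg (W i : ℝ)
  exact ⟨by linarith, le_sqrt_of_sq_le (by linarith),
    sqrt_le_iff.2 ⟨by positivity, by linarith⟩⟩

theorem vtx_sound {W L C O E : ℕ → ℕ} {i j k : ℕ} {x y z : ℝ} (hx : x = i / 32 - 1 / 4)
    (hy : y = j / 32 - 1 / 4) (hz : z = k / 32 - 1 / 4) (h1 : sqB W i = true)
    (h2 : sqB W j = true) (h : vtxB W L C O E i j k = true) {ep em : ℕ} (h0 : 0 < ep)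
    (hf : fit E ep em i j k = true) (hg : 0 < gram x y z) :
    okb O i j k = true ∧ (ge L i j k : ℝ) / 2 ^ 24 + ep / 2 ^ 20 ≤ 1 * ang x y z ∧
      ((ge C i j k : ℝ) - 2 ^ 26) / 2 ^ 24 + em / 2 ^ 20 ≤ -1 * ang x y z := by
  obtain ⟨a0, a1, a2⟩ := sq_sound hx h1
  obtain ⟨-, b1, b2⟩ := sq_sound hy h2
  have m1 := mul_le_mul a1 b1 (by positivity) (sqrt_nonneg _)
  have m2 := mul_le_mul a2 b2 (sqrt_nonneg _) (by positivity)
  rw [← sqrt_mul a0] at m1 m2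
  simp only [vtxB, fit, fc_eq, an_eq, orr_eq] at h hf
  obtain ⟨f1, f2⟩ := hf
  have f1' : ep ≤ ge E i j k % 2147483648 := Nat.le_of_ble_eq_true f1
  have f2' : em ≤ ge E i j k / 2147483648 % 2147483648 := Nat.le_of_ble_eq_true f2
  rcases h with h | ⟨k0, k1, k2, k3, k4, k5⟩
  · rw [Nat.eq_of_beq_eq_true h] at f1'
    omega
  have n1 := Nat.le_of_ble_eq_true k1
  have n2 := Nat.le_of_ble_eq_true k2
  have n3 := Nat.le_of_ble_eq_true k3
  have s1 := su_ge n1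
  have s2 := sl_le n2
  have e1 : (ge L i j k : ℝ) + 16 * ep ≤ ((ge L i j k + 16 * (ge E i j k % 2147483648) : ℕ) : ℝ) := by
    exact_mod_cast Nat.add_le_add_left (Nat.mul_le_mul_left 16 f1') _
  have e2 : ((67108864 - (ge C i j k + 16 * (ge E i j k / 2147483648 % 2147483648)) : ℕ) : ℝ) +
      ge C i j k + 16 * em ≤ 67108864 := by
    exact_mod_cast (by omega : 67108864 - (ge C i j k + 16 * (ge E i j k / 2147483648 % 2147483648)) +
      ge C i j k + 16 * em ≤ 67108864)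
  have k4 := ble_cast k4
  have k5 := ble_cast k5
  clear k1 k2 k3 n3 f1 f2 f1' f2'
  obtain ⟨n, hn⟩ : ∃ n, n = ge L i j k + 16 * (ge E i j k % 2147483648) := ⟨_, rfl⟩
  obtain ⟨n', hn'⟩ : ∃ n, n = 67108864 -
    (ge C i j k + 16 * (ge E i j k / 2147483648 % 2147483648)) := ⟨_, rfl⟩
  rw [← hn] at n1 s1 e1 k4
  rw [← hn'] at n2 s2 e2 k5
  simp only [Nat.cast_add, Nat.cast_mul, Nat.cast_pow, Nat.cast_ofNat, Nat.cast_one] at k4 k5
  have n1 : (n : ℝ) ≤ 50331648 := by exact_mod_cast n1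
  have n2 : (n' : ℝ) ≤ 50331648 := by exact_mod_cast n2
  have g1 := ang_ge hg (by positivity) (by linarith) s1 m1 m2 (by rw [hx, hy, hz]; linarith)
  have g2 := ang_le hg (by positivity) (by linarith) (by positivity) s2 m1 m2
    (by rw [hx, hy, hz]; linarith)
  exact ⟨k0, by linarith, by linarith⟩

/-- the property of the tables on the grid with step `n / 32`. -/
def Hb (n : ℕ) (L C O : ℕ → ℕ) : Prop := ∀ (i j k : ℕ) (a b c x y z : ℝ),
  n * i ≤ 30 → n * j ≤ 30 → n * k ≤ 30 → a ∈ Icc (0 : ℝ) 1 → b ∈ Icc (0 : ℝ) 1 →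
  c ∈ Icc (0 : ℝ) 1 → x = n * (i + a) / 32 - 1 / 4 → y = n * (j + b) / 32 - 1 / 4 →
  z = n * (k + c) / 32 - 1 / 4 → x ≤ 23 / 32 → y ≤ 23 / 32 → z ≤ 23 / 32 →
  425 / 256 * cof x y z < 4 * gram x y z →
  at8 (okb O) i j k = true ∧ KL.tri (ge L) i j k a b c ≤ 2 ^ 24 * ang x y z ∧
    2 ^ 24 * ang x y z ≤ 2 ^ 26 - KL.tri (ge C) i j k a b c

theorem hb0 {W L C O E : ℕ → ℕ} (h1 : alln 32 (sqB W) = true)
    (h2 : all3 32 (vtxB W L C O E) = true) (h3 : all3 31 (cellB E) = true) : Hb 1 L C O := by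
  intro i j k a b c x y z hi hj hk ha hb hc hx hy hz _ _ _ hr
  have ex : x = i / 32 - 1 / 4 + a * (1 / 32) := by rw [hx]; push_cast; ring
  have ey : y = j / 32 - 1 / 4 + b * (1 / 32) := by rw [hy]; push_cast; ring
  have ez : z = k / 32 - 1 / 4 + c * (1 / 32) := by rw [hz]; push_cast; ring
  rcases cellB_sound (by omega) (by omega) (by omega)
    (all3_eq h3 (i := i) (j := j) (k := k) (by omega) (by omega) (by omega)) with h | h
  · exact absurd (h x ⟨by linarith [ha.1], by linarith [ha.2]⟩ y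
      ⟨by linarith [hb.1], by linarith [hb.2]⟩ z ⟨by linarith [hc.1], by linarith [hc.2]⟩)
      (not_le.2 hr)
  obtain ⟨ep, em, e0, ⟨M1, M2, M3, m1, m2, m3, m4, m5⟩, ⟨N1, N2, N3, n1, n2, n3, n4, n5⟩, h⟩ := h
  have V : ∀ d e f : ℕ, d ≤ 1 → e ≤ 1 → f ≤ 1 → ∀ x y z : ℝ, x = i / 32 - 1 / 4 + d / 32 →
      y = j / 32 - 1 / 4 + e / 32 → z = k / 32 - 1 / 4 + f / 32 →
      okb O (i + d) (j + e) (k + f) = true ∧
      (ge L (i + d) (j + e) (k + f) : ℝ) / 2 ^ 24 + ep / 2 ^ 20 ≤ 1 * ang x y z ∧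
      ((ge C (i + d) (j + e) (k + f) : ℝ) - 2 ^ 26) / 2 ^ 24 + em / 2 ^ 20 ≤ -1 * ang x y z := by
    intro d e f hd he hf x y z hx hy hz
    have d1 : (d : ℝ) ≤ 1 := by exact_mod_cast hd
    have e1 : (e : ℝ) ≤ 1 := by exact_mod_cast he
    have f1 : (f : ℝ) ≤ 1 := by exact_mod_cast hf
    have d0 : (0 : ℝ) ≤ d := d.cast_nonneg
    have e0' : (0 : ℝ) ≤ e := e.cast_nonneg
    have f0 : (0 : ℝ) ≤ f := f.cast_nonneg
    exact vtx_sound (by rw [hx]; push_cast; ring) (by rw [hy]; push_cast; ring)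
      (by rw [hz]; push_cast; ring) (alln_eq h1 _ (by omega)) (alln_eq h1 _ (by omega))
      (all3_eq h2 (by omega) (by omega) (by omega)) e0 (at8_eq.1 h d e f hd he hf)
      (m5 x ⟨by linarith, by linarith⟩ y ⟨by linarith, by linarith⟩ z ⟨by linarith, by linarith⟩).1
  have z0 : ∀ t : ℝ, t = t + ((0 : ℕ) : ℝ) / 32 := fun t => by simp
  have z1 : ∀ t : ℝ, t + 1 / 32 = t + ((1 : ℕ) : ℝ) / 32 := fun t => by simp
  have o := zero_le_one' ℕ
  have v000 := V 0 0 0 o o o _ _ _ (z0 _) (z0 _) (z0 _)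
  have v001 := V 0 0 1 o o le_rfl _ _ _ (z0 _) (z0 _) (z1 _)
  have v010 := V 0 1 0 o le_rfl o _ _ _ (z0 _) (z1 _) (z0 _)
  have v011 := V 0 1 1 o le_rfl le_rfl _ _ _ (z0 _) (z1 _) (z1 _)
  have v100 := V 1 0 0 le_rfl o o _ _ _ (z1 _) (z0 _) (z0 _)
  have v101 := V 1 0 1 le_rfl o le_rfl _ _ _ (z1 _) (z0 _) (z1 _)
  have v110 := V 1 1 0 le_rfl le_rfl o _ _ _ (z1 _) (z1 _) (z0 _)
  have v111 := V 1 1 1 le_rfl le_rfl le_rfl _ _ _ (z1 _) (z1 _) (z1 _)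
  have t1 := ang_tri (by norm_num) ha hb hc m1 m2 m3 m5 (by linarith) v000.2.1 v001.2.1 v010.2.1
    v011.2.1 v100.2.1 v101.2.1 v110.2.1 v111.2.1
  have t2 := ang_tri (by norm_num) ha hb hc n1 n2 n3 n5 (by linarith) v000.2.2 v001.2.2 v010.2.2
    v011.2.2 v100.2.2 v101.2.2 v110.2.2 v111.2.2
  rw [← ex, ← ey, ← ez] at t1 t2
  simp only [tri, add_zero] at t1 t2
  refine ⟨at8_eq.2 fun d e f hd he hf => (V d e f hd he hf _ _ _ rfl rfl rfl).1, ?_, ?_⟩
  · unfold KL.tri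
    linarith
  · unfold KL.tri
    linarith

theorem split {n i : ℕ} {a : ℝ} (hn : 0 < n) (hi : n * i ≤ 30) (ha : a ∈ Icc (0 : ℝ) 1)
    (hx : (n : ℝ) * (i + a) / 32 - 1 / 4 ≤ 23 / 32) :
    ∃ (d : ℕ) (t : ℝ), d < n ∧ n * i + d ≤ 30 ∧ t ∈ Icc (0 : ℝ) 1 ∧ n * a = d + t := by
  have k : ∀ T : ℕ, ∀ u : ℝ, 0 ≤ u → u ≤ (T + 1 : ℕ) →
      ∃ (d : ℕ) (t : ℝ), d ≤ T ∧ t ∈ Icc (0 : ℝ) 1 ∧ u = d + t := by
    intro T
    induction T with
    | zero => exact fun u h0 h1 => ⟨0, u, le_rfl, ⟨h0, by simpa using h1⟩, by simp⟩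
    | succ T ih =>
      intro u h0 h1
      rcases le_total u (T + 1 : ℕ) with e | e
      · obtain ⟨d, t, a, b⟩ := ih u h0 e
        exact ⟨d, t, by omega, b⟩
      · push_cast at h1 e
        exact ⟨T + 1, u - (T + 1), le_rfl, ⟨by linarith, by linarith⟩, by push_cast; ring⟩
  have n0 : (0 : ℝ) ≤ n := n.cast_nonneg
  rcases le_total (n * i + n) 31 with e | e
  · obtain ⟨d, t, a, b⟩ := k (n - 1) (n * a) (mul_nonneg n0 ha.1) (by
      rw [Nat.sub_add_cancel hn]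
      exact mul_le_of_le_one_right n0 ha.2)
    exact ⟨d, t, by omega, by omega, b⟩
  · obtain ⟨d, t, a, b⟩ := k (30 - n * i) (n * a) (mul_nonneg n0 ha.1) (by
      rw [Nat.cast_add, Nat.cast_sub hi]
      push_cast
      linarith)
    exact ⟨d, t, by omega, by omega, b⟩

theorem tri_sub (F G : ℕ → ℕ → ℕ → ℕ) {n i j k I J K d e f : ℕ} {a b c t u v : ℝ} (hn : 0 < n)
    (ht : t ∈ Icc (0 : ℝ) 1) (hu : u ∈ Icc (0 : ℝ) 1) (hv : v ∈ Icc (0 : ℝ) 1)
    (ea : n * a = d + t) (eb : n * b = e + u) (ec : n * c = f + v)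
    (h : ∀ p q r : ℕ, p ≤ 1 → q ≤ 1 → r ≤ 1 →
      KL.tri F i j k ((d + p) / n) ((e + q) / n) ((f + r) / n) ≤ G (I + p) (J + q) (K + r)) :
    KL.tri F i j k a b c ≤ KL.tri G I J K t u v := by
  have n0 : (n : ℝ) ≠ 0 := by positivity
  obtain rfl : a = (d + t) / n := by rw [← ea]; field_simp
  obtain rfl : b = (e + u) / n := by rw [← eb]; field_simp
  obtain rfl : c = (f + v) / n := by rw [← ec]; field_simp
  have o := zero_le_one' ℕ
  have m : ∀ {w x y z z' : ℝ}, w ∈ Icc (0 : ℝ) 1 → x ≤ y → z ≤ z' →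
      (1 - w) * x + w * z ≤ (1 - w) * y + w * z' := fun hw h1 h2 =>
    add_le_add (mul_le_mul_of_nonneg_left h1 (sub_nonneg.2 hw.2)) (mul_le_mul_of_nonneg_left h2 hw.1)
  refine le_trans (le_of_eq ?_) (m ht
    (m hu (m hv (h 0 0 0 o o o) (h 0 0 1 o o le_rfl))
      (m hv (h 0 1 0 o le_rfl o) (h 0 1 1 o le_rfl le_rfl)))
    (m hu (m hv (h 1 0 0 le_rfl o o) (h 1 0 1 le_rfl o le_rfl))
      (m hv (h 1 1 0 le_rfl le_rfl o) (h 1 1 1 le_rfl le_rfl le_rfl))))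
  simp only [KL.tri, Nat.cast_zero, Nat.cast_one]
  ring

theorem triN_le {T : ℕ → ℕ} {n i j k d e f g : ℕ} (hn : 0 < n) (hd : d ≤ n) (he : e ≤ n)
    (hf : f ≤ n) (h : Nat.ble (triN T i j k i.succ j.succ k.succ d (n - d) e (n - e) f (n - f))
      (n * n * n * g) = true) : KL.tri (ge T) i j k (d / n) (e / n) (f / n) ≤ g := by
  have h := ble_cast h
  have n0 : (0 : ℝ) < n := by exact_mod_cast hn
  simp only [triN, Nat.cast_add, Nat.cast_mul, Nat.cast_sub hd, Nat.cast_sub he, Nat.cast_sub hf,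
    Nat.succ_eq_add_one] at h
  refine le_of_mul_le_mul_left (le_trans (le_of_eq ?_) h) (by positivity)
  unfold KL.tri
  field_simp

theorem hb_crs {n m : ℕ} {L C O L' C' O' : ℕ → ℕ} (hn : 0 < n) (hm : ∀ i, n * i ≤ 30 → i < m)
    (h0 : Hb 1 L C O) (h : all3 m (crsB n L C O L' C' O') = true) : Hb n L' C' O' := by
  intro i j k a b c x y z hi hj hk ha hb hc hx hy hz lx ly lz hr
  obtain ⟨d, t, d1, d2, ht, ea⟩ := split hn hi ha (hx ▸ lx)
  obtain ⟨e, u, e1, e2, hu, eb⟩ := split hn hj hb (hy ▸ ly)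
  obtain ⟨f, v, f1, f2, hv, ec⟩ := split hn hk hc (hz ▸ lz)
  obtain ⟨k1, k2, k3⟩ := h0 (n * i + d) (n * j + e) (n * k + f) t u v x y z (by omega) (by omega)
    (by omega) ht hu hv (by rw [hx]; push_cast; linarith) (by rw [hy]; push_cast; linarith)
    (by rw [hz]; push_cast; linarith) lx ly lz hr
  have h := all3_eq h (hm i hi) (hm j hj) (hm k hk)
  unfold crsB at h
  cases w : at8 (okb O') i j k
  · rw [w] at h
    have := all3_eq h d1 e1 f1
    simp only [fc_eq, k1] at this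
    exact absurd this (by decide)
  rw [w] at h
  simp only [fc_eq] at h
  have q : ∀ p q r : ℕ, p ≤ 1 → q ≤ 1 → r ≤ 1 →
      KL.tri (ge L') i j k ((d + p) / n) ((e + q) / n) ((f + r) / n) ≤
        ge L (n * i + d + p) (n * j + e + q) (n * k + f + r) ∧
      KL.tri (ge C') i j k ((d + p) / n) ((e + q) / n) ((f + r) / n) ≤
        ge C (n * i + d + p) (n * j + e + q) (n * k + f + r) := by
    intro p q r hp hq hr
    have := alln_eq (alln_eq (alln_eq h (d + p) (by omega)) (e + q) (by omega)) (f + r) (by omega)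
    simp only [← add_assoc] at this
    rw [at8_eq.1 k1 p q r hp hq hr] at this
    obtain ⟨g1, g2⟩ := an_eq.1 this
    simp only [← Nat.cast_add]
    exact ⟨triN_le hn (by omega) (by omega) (by omega) g1,
      triN_le hn (by omega) (by omega) (by omega) g2⟩
  have t1 := tri_sub (ge L') (ge L) hn ht hu hv ea eb ec fun p s r a b c => (q p s r a b c).1
  have t2 := tri_sub (ge C') (ge C) hn ht hu hv ea eb ec fun p s r a b c => (q p s r a b c).2
  exact ⟨rfl, by linarith, by linarith⟩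

end Pool.Agent.Lib.MP_f3b2fd_co.KEP.Hu
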