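import Pool.Agent.Lib.MP_f3b2fd_co.KEP.B.H.D0
import Pool.Agent.Lib.MP_f3b2fd_co.KEP.B.H.D1
import Pool.Agent.Lib.MP_f3b2fd_co.KEP.B.H.D2
import Pool.Agent.Lib.MP_f3b2fd_co.KEP.B.H.D3
import Pool.Agent.Lib.MP_f3b2fd_co.KEP.B.H.D4
import Pool.Agent.Lib.MP_f3b2fd_co.KEP.B.H.D6
import Pool.Agent.Lib.MP_f3b2fd_co.KEP.B.H.D7

/-! The grid tables. -/

set_option autoImplicit false

namespace Pool.Agent.Lib.MP_f3b2fd_co.KEP.Hu

noncomputable section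

def nthL (l : List (List ℕ)) : ℕ → List ℕ :=
  List.rec (motive := fun _ => ℕ → List ℕ) (fun _ => [])
    (fun a _ ih n => Nat.rec (motive := fun _ => List ℕ) a (fun m _ => ih m) n) l

def tbs : List (List ℕ) :=
  [t0_0, t0_1, t0_2, [], [], [], t0_6, t0_7, t0_8, t0_9, t0_10, t0_11, t0_12,
   t1_0, t1_1, t1_2, [], [], [], t1_6, t1_7, t1_8, t1_9, t1_10, t1_11, t1_12,
   t2_0, t2_1, t2_2, [], [], [], t2_6, t2_7, t2_8, t2_9, t2_10, t2_11, t2_12]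

/-- plane `i` of table `m ≤ 12` of level `s`. -/
def tb (s m i : ℕ) : ℕ := nth (nthL tbs (Nat.add (Nat.mul 13 s) m)) i

end

end Pool.Agent.Lib.MP_f3b2fd_co.KEP.Hu
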