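import Pool.Agent.Lib.MP_f3b2fd_co.KEP.B.Curv

/-! Trilinear interpolation of the angle on a cell; bounds for the angle at a point. -/

set_option autoImplicit false

open Real Set

namespace Pool.Agent.Lib.MP_f3b2fd_co.KEP.Hu

open KA.Der (quad)

/-- linear interpolation of a function with second derivative at most `M`. -/
theorem step {φ g d : ℝ → ℝ} {l w a M : ℝ} (hw : 0 < w) (ha : a ∈ Icc (0 : ℝ) 1) (hM : 0 ≤ M)
    (h1 : ∀ t ∈ Icc l (l + w), HasDerivAt φ (g t) t)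
    (h2 : ∀ t ∈ Icc l (l + w), HasDerivAt g (d t) t) (hd : ∀ t ∈ Icc l (l + w), d t ≤ M) :
    (1 - a) * φ l + a * φ (l + w) - M * w ^ 2 / 8 ≤ φ (l + a * w) := by
  obtain ⟨s, hs⟩ : ∃ s, s * w = φ (l + w) - φ l := ⟨_, div_mul_cancel₀ _ hw.ne'⟩
  have := chord (φ := fun t => φ t - s * t) (g := fun t => g t - s) (d := d) (l := l) (u := l + w)
    (x := l + a * w) (c := φ l - s * l) (M := M)
    ⟨by nlinarith [ha.1], by nlinarith [ha.2]⟩ hM
    (fun t ht => by simpa using (h1 t ht).fun_sub ((hasDerivAt_id' t).const_mul s))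
    (fun t ht => (h2 t ht).sub_const s) hd le_rfl (by linarith)
  rw [add_sub_cancel_left] at this
  have e : a * (s * w) = a * (φ (l + w) - φ l) := by rw [hs]
  linarith

theorem ne_of_gram {p q r : ℝ} (h : 0 < gram p q r) : 1 - p ^ 2 ≠ 0 := fun e => by
  rw [gram_eq, e] at h
  nlinarith [sq_nonneg (r - p * q)]

/-- trilinear interpolation. -/
def tri (f000 f001 f010 f011 f100 f101 f110 f111 a b c : ℝ) : ℝ :=
  (1 - a) * ((1 - b) * ((1 - c) * f000 + c * f001) + b * ((1 - c) * f010 + c * f011)) +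
    a * ((1 - b) * ((1 - c) * f100 + c * f101) + b * ((1 - c) * f110 + c * f111))

theorem ang_tri {σ p q r w a b c M1 M2 M3 f000 f001 f010 f011 f100 f101 f110 f111 e : ℝ}
    (hw : 0 < w) (ha : a ∈ Icc (0 : ℝ) 1) (hb : b ∈ Icc (0 : ℝ) 1) (hc : c ∈ Icc (0 : ℝ) 1)
    (m1 : 0 ≤ M1) (m2 : 0 ≤ M2) (m3 : 0 ≤ M3)
    (H : ∀ x ∈ Icc p (p + w), ∀ y ∈ Icc q (q + w), ∀ z ∈ Icc r (r + w), 0 < gram x y z ∧
      σ * angPP x y z ≤ M1 ∧ σ * angPP y x z ≤ M2 ∧ σ * angRR x y z ≤ M3)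
    (he : (M1 + M2 + M3) * w ^ 2 / 8 ≤ e)
    (h000 : f000 + e ≤ σ * ang p q r) (h001 : f001 + e ≤ σ * ang p q (r + w))
    (h010 : f010 + e ≤ σ * ang p (q + w) r) (h011 : f011 + e ≤ σ * ang p (q + w) (r + w))
    (h100 : f100 + e ≤ σ * ang (p + w) q r) (h101 : f101 + e ≤ σ * ang (p + w) q (r + w))
    (h110 : f110 + e ≤ σ * ang (p + w) (q + w) r)
    (h111 : f111 + e ≤ σ * ang (p + w) (q + w) (r + w)) :
    tri f000 f001 f010 f011 f100 f101 f110 f111 a b c ≤
      σ * ang (p + a * w) (q + b * w) (r + c * w) := by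
  have lo : ∀ t : ℝ, t ∈ Icc t (t + w) := fun t => ⟨le_rfl, by linarith⟩
  have hi : ∀ t : ℝ, t + w ∈ Icc t (t + w) := fun t => ⟨by linarith, le_rfl⟩
  have mi : ∀ t a : ℝ, a ∈ Icc (0 : ℝ) 1 → t + a * w ∈ Icc t (t + w) := fun t a ha =>
    ⟨by nlinarith [ha.1], by nlinarith [ha.2]⟩
  have t3 : ∀ x ∈ Icc p (p + w), ∀ y ∈ Icc q (q + w), ∀ u v, u + e ≤ σ * ang x y r →
      v + e ≤ σ * ang x y (r + w) →
      (1 - c) * u + c * v + e - M3 * w ^ 2 / 8 ≤ σ * ang x y (r + c * w) := by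
    intro x hx y hy u v hu hv
    have := step (φ := fun t => σ * ang x y t) (g := fun t => σ * angR x y t)
      (d := fun t => σ * angRR x y t) hw hc m3
      (fun t ht => (hasDeriv_angR (H x hx y hy t ht).1).const_mul σ)
      (fun t ht => (hasDeriv_angRR (H x hx y hy t ht).1).const_mul σ)
      fun t ht => (H x hx y hy t ht).2.2.2
    nlinarith [mul_le_mul_of_nonneg_left hu (sub_nonneg.2 hc.2), mul_le_mul_of_nonneg_left hv hc.1]
  have t2 : ∀ x ∈ Icc p (p + w), ∀ u v, u ≤ σ * ang x q (r + c * w) →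
      v ≤ σ * ang x (q + w) (r + c * w) →
      (1 - b) * u + b * v - M2 * w ^ 2 / 8 ≤ σ * ang x (q + b * w) (r + c * w) := by
    intro x hx u v hu hv
    have g : ∀ t ∈ Icc q (q + w), 0 < gram t x (r + c * w) := fun t ht => by
      rw [gram_swap]
      exact (H x hx t ht _ (mi r c hc)).1
    have := step (φ := fun t => σ * ang t x (r + c * w)) (g := fun t => σ * angP t x (r + c * w))
      (d := fun t => σ * angPP t x (r + c * w)) hw hb m2
      (fun t ht => (hasDeriv_angP (g t ht) (ne_of_gram (g t ht))).const_mul σ)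
      (fun t ht => (hasDeriv_angPP (g t ht) (ne_of_gram (g t ht))).const_mul σ)
      fun t ht => (H x hx t ht _ (mi r c hc)).2.2.1
    simp only [ang_comm _ x] at this
    nlinarith [mul_le_mul_of_nonneg_left hu (sub_nonneg.2 hb.2), mul_le_mul_of_nonneg_left hv hb.1]
  have g : ∀ t ∈ Icc p (p + w), 0 < gram t (q + b * w) (r + c * w) := fun t ht =>
    (H t ht _ (mi q b hb) _ (mi r c hc)).1
  have t1 := step (φ := fun t => σ * ang t (q + b * w) (r + c * w))
    (g := fun t => σ * angP t (q + b * w) (r + c * w))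
    (d := fun t => σ * angPP t (q + b * w) (r + c * w)) hw ha m1
    (fun t ht => (hasDeriv_angP (g t ht) (ne_of_gram (g t ht))).const_mul σ)
    (fun t ht => (hasDeriv_angPP (g t ht) (ne_of_gram (g t ht))).const_mul σ)
    fun t ht => (H t ht _ (mi q b hb) _ (mi r c hc)).2.1
  have u0 := t2 p (lo p) _ _ (t3 p (lo p) q (lo q) _ _ h000 h001)
    (t3 p (lo p) _ (hi q) _ _ h010 h011)
  have u1 := t2 _ (hi p) _ _ (t3 _ (hi p) q (lo q) _ _ h100 h101)
    (t3 _ (hi p) _ (hi q) _ _ h110 h111)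
  have v0 := mul_le_mul_of_nonneg_left u0 (sub_nonneg.2 ha.2)
  have v1 := mul_le_mul_of_nonneg_left u1 ha.1
  unfold tri
  linarith

theorem sin_bd {x : ℝ} (h0 : 0 ≤ x) (h2 : x ≤ 2) :
    x - x ^ 3 / 6 + x ^ 5 / 120 - x ^ 7 / 5040 + x ^ 9 / 362880 - x ^ 11 / 39916800 ≤ sin x ∧
      sin x ≤ x - x ^ 3 / 6 + x ^ 5 / 120 - x ^ 7 / 5040 + x ^ 9 / 362880 := by
  have t : Filter.Tendsto (fun n => ∑ i ∈ Finset.range n,
      (-1) ^ i * (x ^ (2 * i + 1) / ((2 * i + 1).factorial : ℝ))) Filter.atTop (nhds (sin x)) := by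
    simpa only [mul_div_assoc] using (Real.hasSum_sin x).tendsto_sum_nat
  have a : Antitone fun i : ℕ => x ^ (2 * i + 1) / ((2 * i + 1).factorial : ℝ) := by
    refine antitone_nat_of_succ_le fun i => ?_
    have f : (0 : ℝ) < (2 * i + 1).factorial := by exact_mod_cast Nat.factorial_pos _
    rw [show 2 * (i + 1) + 1 = 2 * i + 1 + 1 + 1 by ring, Nat.factorial_succ (2 * i + 1 + 1),
      Nat.factorial_succ (2 * i + 1), div_le_div_iff₀ (by positivity) f]
    push_cast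
    have i0 : (0 : ℝ) ≤ i := Nat.cast_nonneg i
    have k : x * x ≤ (2 * i + 1 + 1 + 1) * (2 * i + 1 + 1) := by nlinarith
    have := mul_le_mul_of_nonneg_left k (mul_nonneg (pow_nonneg h0 (2 * i + 1)) f.le)
    rw [pow_succ, pow_succ]
    linarith
  have l := a.alternating_series_le_tendsto t 3
  have u := a.tendsto_le_alternating_series t 2
  simp only [Finset.sum_range_succ, Finset.sum_range_zero, Nat.factorial] at l u
  norm_num at l u
  constructor <;> linarith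

/-- a lower bound for the angle. -/
theorem ang_ge {p q r x s m m' : ℝ} (h : 0 < gram p q r) (h0 : 0 ≤ x) (h1 : x ≤ 3 / 2)
    (hs : sin x ≤ s) (hm : m ≤ √((1 - p ^ 2) * (1 - q ^ 2)))
    (hm' : √((1 - p ^ 2) * (1 - q ^ 2)) ≤ m') (k : r - p * q + 2 * s ^ 2 * m' ≤ m) :
    2 * x ≤ ang p q r := by
  have hp : 0 < √((1 - p ^ 2) * (1 - q ^ 2)) :=
    sqrt_pos.2 (by rw [gram_eq] at h; nlinarith [sq_nonneg (r - p * q)])
  have p3 := pi_gt_three
  have s0 := sin_nonneg_of_nonneg_of_le_pi h0 (by linarith)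
  rw [ang_eq_arccos h, ← arccos_cos (x := 2 * x) (by linarith) (by linarith)]
  refine arccos_le_arccos ((div_le_iff₀ hp).2 ?_)
  rw [cos_two_mul, cos_sq']
  have := mul_le_mul (pow_le_pow_left₀ s0 hs 2) hm' hp.le (sq_nonneg s)
  linarith

/-- an upper bound for the angle. -/
theorem ang_le {p q r x s m m' : ℝ} (h : 0 < gram p q r) (h0 : 0 ≤ x) (h1 : x ≤ 3 / 2)
    (s0 : 0 ≤ s) (hs : s ≤ sin x) (hm : m ≤ √((1 - p ^ 2) * (1 - q ^ 2)))
    (hm' : √((1 - p ^ 2) * (1 - q ^ 2)) ≤ m') (k : m' ≤ r - p * q + 2 * s ^ 2 * m) :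
    ang p q r ≤ 2 * x := by
  have hp : 0 < √((1 - p ^ 2) * (1 - q ^ 2)) :=
    sqrt_pos.2 (by rw [gram_eq] at h; nlinarith [sq_nonneg (r - p * q)])
  have p3 := pi_gt_three
  rw [ang_eq_arccos h, ← arccos_cos (x := 2 * x) (by linarith) (by linarith)]
  refine arccos_le_arccos ((le_div_iff₀ hp).2 ?_)
  rw [cos_two_mul, cos_sq']
  have a := mul_le_mul_of_nonneg_left hm (sq_nonneg s)
  have b := mul_le_mul_of_nonneg_right (pow_le_pow_left₀ s0 hs 2) hp.le
  linarith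

/-- a side of a triangle with small circumradius. -/
theorem side_gt {p q r k : ℝ} (h : 0 < gram p q r) (hp : p ^ 2 < 1) (hk : 0 ≤ k)
    (hr : k * cof p q r < 4 * gram p q r) : k / 2 - 1 < p := by
  have e : (1 + p) * cof p q r = 2 * gram p q r + (1 - p) * (1 + p - q - r) ^ 2 := by
    unfold cof gram; ring
  have a : 0 < 1 + p := by nlinarith
  have b : 0 ≤ (1 - p) * (1 + p - q - r) ^ 2 := mul_nonneg (by nlinarith) (sq_nonneg _)
  have c := mul_lt_mul_of_pos_left hr a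
  have d := mul_nonneg hk b
  have : k * gram p q r < 2 * (1 + p) * gram p q r := by nlinarith
  have := lt_of_mul_lt_mul_right this h.le
  linarith

end Pool.Agent.Lib.MP_f3b2fd_co.KEP.Hu
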