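import Pool.Agent.Lib.MP_f3b2fd_co.KEP.B.H.S1
import Pool.Agent.Lib.MP_f3b2fd_co.KEP.B.H.W0

/-! Soundness of the checker of the weighted tables. -/

set_option autoImplicit false

open Real Set

namespace Pool.Agent.Lib.MP_f3b2fd_co.KEP.Hu

theorem eg_sound {g0 g1 q0 q1 c0 c1 : ℕ} {a : ℝ} (a0 : 0 ≤ a) (a1 : a ≤ 1) (hg : g1 ≤ g0)
    (h : eg g0 g1 q0 q1 c0 c1 = true) : (1 - a) * c0 + a * c1 ≤
      2 ^ 25 - ((1 - a) * g0 + a * g1) / 32 * (2 ^ 27 - ((1 - a) * q0 + a * q1)) := by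
  obtain ⟨h0, h1⟩ := an_eq.1 h
  have h0 := ble_cast h0
  have h1 := ble_cast h1
  have d0 : (0 : ℝ) ≤ ((q0 - q1 : ℕ) : ℝ) := Nat.cast_nonneg _
  have d1 : (q0 : ℝ) - q1 ≤ ((q0 - q1 : ℕ) : ℝ) := by
    have : (q0 : ℝ) ≤ ((q0 - q1 + q1 : ℕ) : ℝ) := Nat.cast_le.2 (by omega)
    rw [Nat.cast_add] at this
    linarith
  have g : (0 : ℝ) ≤ g0 - g1 := sub_nonneg.2 (Nat.cast_le.2 hg)
  simp only [Nat.cast_add, Nat.cast_mul, Nat.cast_ofNat, Nat.cast_sub hg] at h0 h1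
  obtain ⟨D, hD⟩ : ∃ D : ℝ, D = ((q0 - q1 : ℕ) : ℝ) := ⟨_, rfl⟩
  rw [← hD] at h0 h1 d0 d1
  have b0 := sub_nonneg.2 a1
  have m0 := mul_le_mul_of_nonneg_left h0 b0
  have m1 := mul_le_mul_of_nonneg_left h1 a0
  have m2 := mul_le_mul_of_nonneg_left d1 (mul_nonneg (mul_nonneg a0 b0) g)
  have m3 := mul_nonneg (mul_nonneg (mul_self_nonneg (1 - 2 * a)) g) d0
  linarith

theorem wc_sound {n i j k : ℕ} {Q C : ℕ → ℕ → ℕ → ℕ} {a b c x : ℝ} (hn : n = 1 ∨ n = 2 ∨ n = 4)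
    (a0 : 0 ≤ a) (a1 : a ≤ 1) (b0 : 0 ≤ b) (b1 : b ≤ 1) (c0 : 0 ≤ c) (c1 : c ≤ 1)
    (hx : x = n * (i + a) / 32 - 1 / 4) (h : wc n Q C i j k = true) {w : ℝ}
    (hw : w ≤ 2 ^ 27 - KL.tri Q i j k a b c) :
    KL.tri C i j k a b c ≤ 2 ^ 25 - max (1 / 2 - x) 0 * w := by
  simp only [wc, fc_eq, an_eq, Nat.succ_eq_add_one] at h
  obtain ⟨⟨h1, h2⟩, h3, h4⟩ := h
  have hg : 24 - n * (i + 1) ≤ 24 - n * i := Nat.sub_le_sub_left (by nlinarith) _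
  have e : max (1 / 2 - x) 0 =
      ((1 - a) * ((24 - n * i : ℕ) : ℝ) + a * ((24 - n * (i + 1) : ℕ) : ℝ)) / 32 := by
    have n0 : (0 : ℝ) ≤ n := n.cast_nonneg
    have : n * (i + 1) ≤ 24 ∨ 24 ≤ n * i := by rcases hn with rfl | rfl | rfl <;> omega
    rcases this with t | t
    · have t' : ((n * (i + 1) : ℕ) : ℝ) ≤ 24 := by exact_mod_cast t
      rw [Nat.cast_sub t, Nat.cast_sub (le_trans (by nlinarith) t), max_eq_left, hx]
      · push_cast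
        ring
      · push_cast at t'
        rw [hx]
        nlinarith
    · have t' : (24 : ℝ) ≤ ((n * i : ℕ) : ℝ) := by exact_mod_cast t
      rw [Nat.sub_eq_zero_of_le t, Nat.sub_eq_zero_of_le (t.trans (by nlinarith)), max_eq_right]
      · simp
      · push_cast at t'
        rw [hx]
        nlinarith
  have k1 := eg_sound a0 a1 hg h1
  have k2 := eg_sound a0 a1 hg h2
  have k3 := eg_sound a0 a1 hg h3
  have k4 := eg_sound a0 a1 hg h4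
  rw [← e] at k1 k2 k3 k4
  have m := mul_le_mul_of_nonneg_left hw (le_max_right (1 / 2 - x) 0)
  obtain ⟨g, hG⟩ : ∃ g, g = max (1 / 2 - x) 0 := ⟨_, rfl⟩
  rw [← hG] at k1 k2 k3 k4 m ⊢
  have b2 := sub_nonneg.2 b1
  have c2 := sub_nonneg.2 c1
  have m1 := mul_le_mul_of_nonneg_left k1 (mul_nonneg b2 c2)
  have m2 := mul_le_mul_of_nonneg_left k2 (mul_nonneg b2 c0)
  have m3 := mul_le_mul_of_nonneg_left k3 (mul_nonneg b0 c2)
  have m4 := mul_le_mul_of_nonneg_left k4 (mul_nonneg b0 c0)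
  unfold KL.tri at m ⊢
  linarith

theorem tri_q3 (A B L : ℕ → ℕ) (i j k : ℕ) (a b c : ℝ) : KL.tri (q3 A B L) i j k a b c =
    KL.tri (ge A) i j k a b c + KL.tri (ge B) i j k a b c + KL.tri (ge L) i j k a b c := by
  simp only [KL.tri, q3, Nat.cast_add]
  ring

theorem tri_r1 (F : ℕ → ℕ → ℕ → ℕ) (i j k : ℕ) (a b c : ℝ) :
    KL.tri (fun j k i => F i j k) j k i b c a = KL.tri F i j k a b c := by
  simp only [KL.tri]
  ring

theorem tri_r2 (F : ℕ → ℕ → ℕ → ℕ) (i j k : ℕ) (a b c : ℝ) :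
    KL.tri (fun k i j => F i j k) k i j c a b = KL.tri F i j k a b c := by
  simp only [KL.tri]
  ring

end Pool.Agent.Lib.MP_f3b2fd_co.KEP.Hu
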